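import Mathlib
import Pool.Agent.R356.Len
import Pool.Agent.TH647.NR.Res
import Pool.Agent.W472.AC.EMeas2

/-!
# Near relations between `e` and a real number
-/

set_option autoImplicit false

open Polynomial

namespace Pool.Agent.T2H33.NR

open Pool.Agent.R356 (IsLen len len_eq le_len isLen_int det_filt degF)

/-- the evaluation at `e` -/
noncomputable def ee : ℤ[X] →+* ℝ := (aeval (Real.exp 1) : ℤ[X] →ₐ[ℤ] ℝ).toRingHom

lemma ee_apply (a : ℤ[X]) : ee a = aeval (Real.exp 1) a := rfl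

/-- evaluation of a polynomial in two variables, the inner variable at `e`, the outer one at `θ` -/
noncomputable def ev (θ : ℝ) (F : ℤ[X][X]) : ℝ := (F.map ee).eval θ

lemma ev_add (θ : ℝ) (F G : ℤ[X][X]) : ev θ (F + G) = ev θ F + ev θ G := by
  simp [ev]

lemma ev_sub (θ : ℝ) (F G : ℤ[X][X]) : ev θ (F - G) = ev θ F - ev θ G := by
  simp [ev]

lemma ev_mul (θ : ℝ) (F G : ℤ[X][X]) : ev θ (F * G) = ev θ F * ev θ G := by
  simp [ev]

lemma ev_int (θ : ℝ) (n : ℤ) : ev θ (C (C n)) = n := by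
  simp [ev, ee]

/-- degree at most `k` in both variables, and height at most `H` -/
structure Bd (k : ℕ) (H : ℝ) (F : ℤ[X][X]) : Prop where
  deg : F.natDegree ≤ k
  degc : ∀ i, (F.coeff i).natDegree ≤ k
  ht : ∀ i j, |(((F.coeff i).coeff j : ℤ) : ℝ)| ≤ H

lemma sylv_entry {R : Type*} [CommRing R] (p : R → Prop) (h0 : p 0) (f g : R[X]) (m n : ℕ)
    (hf : ∀ i, p (f.coeff i)) (hg : ∀ i, p (g.coeff i)) (i j : Fin (m + n)) :
    p (sylvester f g m n i j) := by
  rw [sylvester, Matrix.of_apply]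
  refine Fin.addCases (fun j₁ => ?_) (fun j₁ => ?_) j
  · rw [Fin.addCases_left]
    split_ifs
    · exact hg _
    · exact h0
  · rw [Fin.addCases_right]
    split_ifs
    · exact hf _
    · exact h0

lemma len_coeff {k : ℕ} {H : ℝ} {F : ℤ[X][X]} (hF : Bd k H F) (i : ℕ) :
    len (fun z : ℤ => |(z : ℝ)|) (F.coeff i) ≤ (k + 1) * H := by
  rw [len_eq isLen_int (F.coeff i) (k + 1) (Nat.lt_succ_of_le (hF.degc i))]
  refine (Finset.sum_le_sum fun j _ => hF.ht i j).trans ?_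
  rw [Finset.sum_const, Finset.card_range, nsmul_eq_mul]
  push_cast
  rfl

lemma ee_coeff {k : ℕ} {H : ℝ} (hH : 0 ≤ H) {F : ℤ[X][X]} (hF : Bd k H F) (i : ℕ) :
    |ee (F.coeff i)| ≤ (k + 1) * H * 3 ^ k := by
  rw [ee_apply, aeval_eq_sum_range' (Nat.lt_succ_of_le (hF.degc i))]
  refine (Finset.abs_sum_le_sum_abs _ _).trans ?_
  have h1 : ∀ j ∈ Finset.range (k + 1), |(F.coeff i).coeff j • Real.exp 1 ^ j| ≤ H * 3 ^ k := by
    intro j hj
    rw [zsmul_eq_mul, abs_mul, abs_pow, abs_of_pos (Real.exp_pos 1)]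
    have h2 : Real.exp 1 ^ j ≤ 3 ^ k := by
      calc Real.exp 1 ^ j ≤ 3 ^ j := by
            gcongr
            linarith [Real.exp_one_lt_d9]
        _ ≤ 3 ^ k := pow_le_pow_right₀ (by norm_num) (Nat.lt_succ_iff.1 (Finset.mem_range.1 hj))
    exact mul_le_mul (hF.ht i j) h2 (by positivity) hH
  refine (Finset.sum_le_sum h1).trans ?_
  rw [Finset.sum_const, Finset.card_range, nsmul_eq_mul]
  push_cast
  exact le_of_eq (by ring)

/-- degree and coefficients of the resultant -/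
lemma res_size {k : ℕ} {H : ℝ} (hH : 1 ≤ H) {F G : ℤ[X][X]} (hF : Bd k H F) (hG : Bd k H G) :
    (resultant F G F.natDegree G.natDegree).natDegree ≤ 2 * k * k ∧
      ∀ j, |(((resultant F G F.natDegree G.natDegree).coeff j : ℤ) : ℝ)| ≤ (2 * k).factorial * ((k + 1) * H) ^ (2 * k) := by
  have hmn : F.natDegree + G.natDegree ≤ 2 * k := by have := hF.deg; have := hG.deg; omega
  constructor
  · have h1 : (resultant F G F.natDegree G.natDegree) ∈ degF ℤ ((F.natDegree + G.natDegree) * k) := by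
      refine det_filt (degF ℤ) (by show (1 : ℤ[X]).natDegree ≤ 0; simp)
        (fun m n a b ha hb => natDegree_mul_le.trans (Nat.add_le_add ha hb)) _ _ _ (fun i j => ?_)
      exact sylv_entry (fun a : ℤ[X] => a ∈ degF ℤ k) (zero_mem _) _ _ _ _ hF.degc hG.degc i j
    have h2 : (resultant F G F.natDegree G.natDegree).natDegree ≤ (F.natDegree + G.natDegree) * k := h1
    exact h2.trans (Nat.mul_le_mul_right k hmn)
  · intro j
    have hB : 1 ≤ ((k : ℝ) + 1) * H := by
      have : (0 : ℝ) ≤ k := Nat.cast_nonneg k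
      nlinarith
    have h1 := isLen_int.poly.det (F.natDegree + G.natDegree) (sylvester F G F.natDegree G.natDegree) ((k + 1) * H)
      (fun i j => sylv_entry (fun a : ℤ[X] => len (fun z : ℤ => |(z : ℝ)|) a ≤ (k + 1) * H)
        (by rw [isLen_int.poly.zero]; linarith) _ _ _ _ (len_coeff hF) (len_coeff hG) i j)
    refine (le_len isLen_int _ j).trans (h1.trans ?_)
    have h2 : ((F.natDegree + G.natDegree).factorial : ℝ) ≤ (2 * k).factorial := by
      exact_mod_cast Nat.factorial_le hmn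
    have h3 : (((k : ℝ) + 1) * H) ^ (F.natDegree + G.natDegree) ≤ ((k + 1) * H) ^ (2 * k) :=
      pow_le_pow_right₀ hB hmn
    exact mul_le_mul h2 h3 (by positivity) (by positivity)

/-- the evaluations over the complex numbers -/
lemma ev_complex (θ : ℝ) (F : ℤ[X][X]) : (F.map ((Complex.ofRealHom).comp ee)).eval (θ : ℂ) = ((ev θ F : ℝ) : ℂ) := by
  rw [ev, ← Polynomial.map_map, eval_map]
  exact eval₂_at_apply Complex.ofRealHom θ

/-- size of the value of the resultant -/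
lemma res_value {k : ℕ} {H T δ θ : ℝ} (hH : 1 ≤ H) (hT : 1 ≤ T) (hθ : |θ| ≤ T) {F G : ℤ[X][X]} (hF : Bd k H F)
    (hG : Bd k H G) (hpos : 0 < F.natDegree + G.natDegree) (h1 : |ev θ F| ≤ δ) (h2 : |ev θ G| ≤ δ) :
    |ee (resultant F G F.natDegree G.natDegree)| ≤
      (2 * k) * (T ^ (2 * k) * δ) * ((2 * k).factorial * ((k + 1) * H * 3 ^ k) ^ (2 * k)) := by
  have hmn : F.natDegree + G.natDegree ≤ 2 * k := by have := hF.deg; have := hG.deg; omega
  have hδ : 0 ≤ δ := (abs_nonneg _).trans h1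
  have hk0 : (0 : ℝ) ≤ k := Nat.cast_nonneg k
  have h3k : (1 : ℝ) ≤ 3 ^ k := one_le_pow₀ (by norm_num)
  have hB : 1 ≤ ((k : ℝ) + 1) * H * 3 ^ k := by
    have h5 : 1 ≤ ((k : ℝ) + 1) * H := by nlinarith
    nlinarith
  have h3 : (((ee (resultant F G F.natDegree G.natDegree) : ℝ)) : ℂ) =
      resultant (F.map ((Complex.ofRealHom).comp ee)) (G.map ((Complex.ofRealHom).comp ee)) F.natDegree G.natDegree := by
    rw [resultant_map_map]
    rfl
  have h4 := Pool.Agent.TH647.NR.norm_resultant_le (F.map ((Complex.ofRealHom).comp ee))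
    (G.map ((Complex.ofRealHom).comp ee)) F.natDegree G.natDegree natDegree_map_le natDegree_map_le hpos
    (((k : ℝ) + 1) * H * 3 ^ k) T δ hB (fun i => ?_) (fun i => ?_) θ hT ?_ ?_ ?_
  · rw [← h3, Complex.norm_real, Real.norm_eq_abs] at h4
    refine h4.trans ?_
    have e1 : ((F.natDegree : ℝ) + G.natDegree) ≤ 2 * k := by exact_mod_cast hmn
    have e2 : T ^ (F.natDegree + G.natDegree) ≤ T ^ (2 * k) := pow_le_pow_right₀ hT hmn
    have e3 : ((F.natDegree + G.natDegree).factorial : ℝ) ≤ (2 * k).factorial := by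
      exact_mod_cast Nat.factorial_le hmn
    have e4 : (((k : ℝ) + 1) * H * 3 ^ k) ^ (F.natDegree + G.natDegree) ≤ ((k + 1) * H * 3 ^ k) ^ (2 * k) :=
      pow_le_pow_right₀ hB hmn
    gcongr
  · rw [coeff_map]
    show ‖((ee (F.coeff i) : ℝ) : ℂ)‖ ≤ _
    rw [Complex.norm_real, Real.norm_eq_abs]
    exact ee_coeff (by linarith) hF i
  · rw [coeff_map]
    show ‖((ee (G.coeff i) : ℝ) : ℂ)‖ ≤ _
    rw [Complex.norm_real, Real.norm_eq_abs]
    exact ee_coeff (by linarith) hG i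
  · rw [Complex.norm_real, Real.norm_eq_abs]; exact hθ
  · rw [ev_complex, Complex.norm_real, Real.norm_eq_abs]; exact h1
  · rw [ev_complex, Complex.norm_real, Real.norm_eq_abs]; exact h2

/-- the basic inequality -/
lemma basic (k : ℕ) (hk : 1 ≤ k) (η T : ℝ) (hη : 0 < η) (hT : 1 ≤ T) : ∃ c : ℝ, 0 < c ∧ ∀ (H δ θ : ℝ) (F G : ℤ[X][X]),
    1 ≤ H → |θ| ≤ T → Bd k H F → Bd k H G → 0 < F.natDegree + G.natDegree → |ev θ F| ≤ δ → |ev θ G| ≤ δ →
    resultant F G F.natDegree G.natDegree ≠ 0 → c ≤ H ^ (4 * (k : ℝ) ^ 3 + 2 * k + η) * δ := by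
  obtain ⟨c, hc, h⟩ := Pool.Agent.W472.AC.e_measP (2 * k * k) (η / (2 * k)) (by positivity)
  set w : ℝ := ((2 * k * k : ℕ) : ℝ) + η / (2 * k) with hw
  have hk0 : (1 : ℝ) ≤ k := by exact_mod_cast hk
  have hw0 : 0 ≤ w := by positivity
  obtain ⟨M₁, hM₁⟩ : ∃ M₁ : ℝ, M₁ = (2 * k).factorial * ((k : ℝ) + 1) ^ (2 * k) := ⟨_, rfl⟩
  have hf1 : (1 : ℝ) ≤ (2 * k).factorial := by exact_mod_cast Nat.factorial_pos (2 * k)
  have hM₁1 : 1 ≤ M₁ := by
    rw [hM₁]
    have : (1 : ℝ) ≤ ((k : ℝ) + 1) ^ (2 * k) := one_le_pow₀ (by linarith)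
    nlinarith
  obtain ⟨M₂, hM₂⟩ : ∃ M₂ : ℝ, M₂ = (2 * k) * T ^ (2 * k) * ((2 * k).factorial * ((k + 1) * 3 ^ k) ^ (2 * k)) := ⟨_, rfl⟩
  have hM₂0 : 0 < M₂ := by rw [hM₂]; positivity
  refine ⟨c / (M₁ ^ w * M₂), by positivity, fun H δ θ F G hH hθ hF hG hpos h1 h2 hne => ?_⟩
  obtain ⟨hs1, hs2⟩ := res_size hH hF hG
  have hv := res_value hH hT hθ hF hG hpos h1 h2
  have hδ : 0 ≤ δ := (abs_nonneg _).trans h1
  have hH0 : 0 < H := by linarith
  have hM1H : ((2 * k).factorial : ℝ) * ((k + 1) * H) ^ (2 * k) = M₁ * H ^ (2 * k) := by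
    rw [hM₁, mul_pow]; ring
  have h3 := h _ hne hs1 (M₁ * H ^ (2 * k)) (by
    have : (1 : ℝ) ≤ H ^ (2 * k) := one_le_pow₀ hH
    nlinarith) (fun j => (hs2 j).trans (le_of_eq hM1H))
  rw [div_le_iff₀ (by positivity)]
  refine h3.trans ?_
  rw [← ee_apply]
  have e1 : (M₁ * H ^ (2 * k)) ^ w = M₁ ^ w * H ^ (2 * k * w) := by
    rw [Real.mul_rpow (by positivity) (by positivity), ← Real.rpow_natCast H, ← Real.rpow_mul hH0.le]
    push_cast
    rfl
  have e2 : 2 * k * w = 4 * (k : ℝ) ^ 3 + η := by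
    rw [hw]
    push_cast
    field_simp
    ring
  have e3 : (2 * k : ℝ) * (T ^ (2 * k) * δ) * ((2 * k).factorial * ((k + 1) * H * 3 ^ k) ^ (2 * k)) =
      M₂ * (H ^ (2 * (k : ℝ)) * δ) := by
    have : H ^ (2 * (k : ℝ)) = H ^ (2 * k) := by
      rw [← Real.rpow_natCast]; push_cast; rfl
    rw [hM₂, this, show ((k : ℝ) + 1) * H * 3 ^ k = ((k + 1) * 3 ^ k) * H by ring, mul_pow _ H]
    ring
  rw [e3] at hv
  calc (M₁ * H ^ (2 * k)) ^ w * |ee (resultant F G F.natDegree G.natDegree)|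
      ≤ (M₁ * H ^ (2 * k)) ^ w * (M₂ * (H ^ (2 * (k : ℝ)) * δ)) := by gcongr
    _ = M₁ ^ w * M₂ * (H ^ (4 * (k : ℝ) ^ 3 + η) * H ^ (2 * (k : ℝ))) * δ := by rw [e1, e2]; ring
    _ = H ^ (4 * (k : ℝ) ^ 3 + 2 * k + η) * δ * (M₁ ^ w * M₂) := by
        rw [← Real.rpow_add hH0, show 4 * (k : ℝ) ^ 3 + η + 2 * k = 4 * (k : ℝ) ^ 3 + 2 * k + η by ring]
        ring

lemma Bd.mono {k : ℕ} {H H' : ℝ} {F : ℤ[X][X]} (h : Bd k H F) (hH : H ≤ H') : Bd k H' F :=
  ⟨h.deg, h.degc, fun i j => (h.ht i j).trans hH⟩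

lemma Bd.zero (k : ℕ) {H : ℝ} (hH : 0 ≤ H) : Bd k H 0 :=
  ⟨by simp, fun i => by simp, fun i j => by simpa using hH⟩

lemma Bd.comb {k : ℕ} {H H' : ℝ} {F G : ℤ[X][X]} (hF : Bd k H F) (hG : Bd k H' G) (p q : ℤ) :
    Bd k (|(p : ℝ)| * H + |(q : ℝ)| * H') (C (C p) * F + C (C q) * G) := by
  refine ⟨?_, fun i => ?_, fun i j => ?_⟩
  · refine (natDegree_add_le _ _).trans (max_le ?_ ?_)
    · exact (natDegree_C_mul_le _ _).trans hF.deg
    · exact (natDegree_C_mul_le _ _).trans hG.deg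
  · rw [coeff_add, coeff_C_mul, coeff_C_mul]
    refine (natDegree_add_le _ _).trans (max_le ?_ ?_)
    · exact (natDegree_C_mul_le _ _).trans (hF.degc i)
    · exact (natDegree_C_mul_le _ _).trans (hG.degc i)
  · rw [coeff_add, coeff_C_mul, coeff_C_mul, coeff_add, coeff_C_mul, coeff_C_mul]
    push_cast
    refine (abs_add_le _ _).trans ?_
    rw [abs_mul, abs_mul]
    have h1 := hF.ht i j
    have h2 := hG.ht i j
    gcongr

lemma ev_comb (θ : ℝ) (F G : ℤ[X][X]) (p q : ℤ) : ev θ (C (C p) * F + C (C q) * G) = p * ev θ F + q * ev θ G := by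
  rw [ev_add, ev_mul, ev_mul, ev_int, ev_int]

/-- a prime of positive degree does not divide nonzero constants -/
lemma not_dvd_const {P : ℤ[X][X]} (hP : 0 < P.natDegree) {n : ℤ} (hn : n ≠ 0) : ¬ P ∣ C (C n) := by
  intro h
  have h1 : (C (C n) : ℤ[X][X]) ≠ 0 := by simpa using hn
  have h2 := natDegree_le_of_dvd h h1
  rw [natDegree_C] at h2
  omega

lemma not_dvd_C {P : ℤ[X][X]} (hP : 0 < P.natDegree) {a : ℤ[X]} (ha : a ≠ 0) : ¬ P ∣ C a := by
  intro h
  have h1 : (C a : ℤ[X][X]) ≠ 0 := by simpa using ha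
  have h2 := natDegree_le_of_dvd h h1
  rw [natDegree_C] at h2
  omega

/-- a generic combination avoids finitely many primes -/
lemma generic {k : ℕ} {H δ θ : ℝ} (hH : 0 ≤ H) (hδ : 0 ≤ δ) (S : Finset ℤ[X][X]) (hS : ∀ P ∈ S, Prime P ∧ 0 < P.natDegree)
    (h : ∀ P ∈ S, ∃ F, Bd k H F ∧ |ev θ F| ≤ δ ∧ ¬ P ∣ F) :
    ∃ G, Bd k (((S.card : ℝ) + 1) ^ 2 * H) G ∧ |ev θ G| ≤ ((S.card : ℝ) + 1) ^ 2 * δ ∧ ∀ P ∈ S, ¬ P ∣ G := by
  classical
  induction S using Finset.induction_on with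
  | empty => exact ⟨0, Bd.zero k (by positivity), by simp [ev]; positivity, by simp⟩
  | insert P S hPS ih =>
    obtain ⟨G, hG1, hG2, hG3⟩ := ih (fun Q hQ => hS Q (Finset.mem_insert_of_mem hQ))
      (fun Q hQ => h Q (Finset.mem_insert_of_mem hQ))
    rw [Finset.card_insert_of_notMem hPS]
    have hs0 : (0 : ℝ) ≤ S.card := Nat.cast_nonneg _
    have hmono : ((S.card : ℝ) + 1) ^ 2 ≤ (((S.card + 1 : ℕ) : ℝ) + 1) ^ 2 := by
      push_cast
      gcongr
      linarith
    by_cases hPG : P ∣ G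
    · obtain ⟨F, hF1, hF2, hF3⟩ := h P (Finset.mem_insert_self _ _)
      -- choose the multiplier
      have hex : ∃ t ∈ Finset.Icc 1 (S.card + 1), ∀ Q ∈ S, ¬ Q ∣ C (C 1) * G + C (C (t : ℤ)) * F := by
        by_contra hcon
        push Not at hcon
        choose! f hf1 hf2 using hcon
        obtain ⟨t, ht, t', ht', hne, heq⟩ := Finset.exists_ne_map_eq_of_card_lt_of_maps_to
          (s := Finset.Icc 1 (S.card + 1)) (t := S) (by rw [Nat.card_Icc]; omega) hf1
        have d1 := hf2 t ht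
        have d2 := hf2 t' ht'
        rw [← heq] at d2
        obtain ⟨hprime, hdeg⟩ := hS (f t) (Finset.mem_insert_of_mem (hf1 t ht))
        have d3 : f t ∣ C (C ((t : ℤ) - t')) * F := by
          have := dvd_sub d1 d2
          have e : C (C 1) * G + C (C (t : ℤ)) * F - (C (C 1) * G + C (C (t' : ℤ)) * F) = C (C ((t : ℤ) - t')) * F := by
            simp only [C_sub]; ring
          rwa [e] at this
        have hne' : (t : ℤ) - t' ≠ 0 := by
          intro h0
          apply hne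
          omega
        have d4 : f t ∣ F := (hprime.dvd_or_dvd d3).resolve_left (not_dvd_const hdeg hne')
        have d5 : f t ∣ G := by
          have := dvd_sub d1 (Dvd.dvd.mul_left d4 (C (C (t : ℤ))))
          simpa using this
        exact hG3 _ (hf1 t ht) d5
      obtain ⟨t, ht, htS⟩ := hex
      have ht1 := (Finset.mem_Icc.1 ht)
      have htr : (t : ℝ) ≤ S.card + 1 := by exact_mod_cast ht1.2
      have ht0 : (0 : ℝ) ≤ t := Nat.cast_nonneg t
      refine ⟨C (C 1) * G + C (C (t : ℤ)) * F, (hG1.comb hF1 1 t).mono ?_, ?_, ?_⟩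
      · push_cast
        rw [abs_one, abs_of_nonneg ht0]
        nlinarith
      · rw [ev_comb]
        refine (abs_add_le _ _).trans ?_
        rw [abs_mul, abs_mul]
        push_cast
        rw [abs_one, abs_of_nonneg ht0]
        have h5 : (t : ℝ) * |ev θ F| ≤ (S.card + 1) * δ := by gcongr
        nlinarith
      · intro Q hQ
        rcases Finset.mem_insert.1 hQ with rfl | hQ
        · intro hd
          obtain ⟨hprime, hdeg⟩ := hS Q (Finset.mem_insert_self _ _)
          have d1 : Q ∣ C (C (t : ℤ)) * F := by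
            have := dvd_sub hd (Dvd.dvd.mul_left hPG (C (C 1)))
            simpa using this
          exact hF3 ((hprime.dvd_or_dvd d1).resolve_left (not_dvd_const hdeg (by omega)))
        · exact htS Q hQ
    · refine ⟨G, hG1.mono (by gcongr), hG2.trans (by gcongr), fun Q hQ => ?_⟩
      rcases Finset.mem_insert.1 hQ with rfl | hQ
      · exact hPG
      · exact hG3 Q hQ

/-- the resultant of polynomials without common prime factors of positive degree -/
lemma res_ne_zero {F G : ℤ[X][X]} (hF : F ≠ 0)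
    (h : ∀ P : ℤ[X][X], Prime P → 0 < P.natDegree → P ∣ F → ¬ P ∣ G) :
    resultant F G F.natDegree G.natDegree ≠ 0 := by
  let K := FractionRing ℤ[X]
  have hinj : Function.Injective (algebraMap ℤ[X] K) := IsFractionRing.injective ℤ[X] K
  intro h0
  have hF' : F.map (algebraMap ℤ[X] K) ≠ 0 := (Polynomial.map_ne_zero_iff hinj).2 hF
  have h1 : resultant (F.map (algebraMap ℤ[X] K)) (G.map (algebraMap ℤ[X] K)) = 0 := by
    rw [natDegree_map_eq_of_injective hinj, natDegree_map_eq_of_injective hinj, resultant_map_map, h0, map_zero]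
  rw [resultant_eq_zero_iff] at h1
  refine h1.2 (isCoprime_of_prime_dvd (fun h2 => hF' h2.1) fun z hz hzF hzG => ?_)
  -- a prime factor of `F`
  obtain ⟨u, hu⟩ := UniqueFactorizationMonoid.factors_prod hF
  have h2 : z ∣ (UniqueFactorizationMonoid.factors F).prod.map (algebraMap ℤ[X] K) := by
    have e : F.map (algebraMap ℤ[X] K) = (UniqueFactorizationMonoid.factors F).prod.map (algebraMap ℤ[X] K) *
        (u : ℤ[X][X]).map (algebraMap ℤ[X] K) := by
      rw [← Polynomial.map_mul, hu]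
    rw [e] at hzF
    have hunit : IsUnit ((u : ℤ[X][X]).map (algebraMap ℤ[X] K)) := u.isUnit.map (mapRingHom (algebraMap ℤ[X] K))
    exact (hunit.dvd_mul_right).1 hzF
  rw [← coe_mapRingHom, map_multiset_prod] at h2
  obtain ⟨P, hP, hzP⟩ := hz.exists_mem_multiset_map_dvd h2
  have hPp : Prime P := UniqueFactorizationMonoid.prime_of_factor P hP
  have hPF : P ∣ F := UniqueFactorizationMonoid.dvd_of_mem_factors hP
  have hdeg : 0 < P.natDegree := by
    rw [Nat.pos_iff_ne_zero]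
    intro h3
    rw [eq_C_of_natDegree_eq_zero h3] at hzP hPp
    have h4 : P.coeff 0 ≠ 0 := by
      intro h5
      rw [h5, C_0] at hPp
      exact hPp.ne_zero rfl
    have h6 : IsUnit ((mapRingHom (algebraMap ℤ[X] K)) (C (P.coeff 0))) := by
      rw [coe_mapRingHom, map_C]
      exact isUnit_C.2 (((map_ne_zero_iff _ hinj).2 h4).isUnit)
    exact hz.not_isUnit (isUnit_of_dvd_unit hzP h6)
  have hprim : P.IsPrimitive := hPp.irreducible.isPrimitive hdeg.ne'
  have hirr : Irreducible (P.map (algebraMap ℤ[X] K)) :=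
    (hprim.irreducible_iff_irreducible_map_fraction_map).1 hPp.irreducible
  have hass : Associated z (P.map (algebraMap ℤ[X] K)) := (hz.irreducible.associated_of_dvd hirr hzP)
  exact h P hPp hdeg hPF (hprim.dvd_of_fraction_map_dvd_fraction_map (hass.symm.dvd.trans hzG))

/-- the number of the prime factors of positive degree -/
lemma card_factors {F : ℤ[X][X]} (hF : F ≠ 0) :
    ∃ S : Finset ℤ[X][X], S.card ≤ F.natDegree ∧ (∀ P ∈ S, Prime P ∧ 0 < P.natDegree) ∧
      ∀ P : ℤ[X][X], Prime P → 0 < P.natDegree → P ∣ F → ∃ Q ∈ S, Associated P Q := by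
  classical
  obtain ⟨u, hu⟩ := UniqueFactorizationMonoid.factors_prod hF
  set M := UniqueFactorizationMonoid.factors F with hM
  refine ⟨(M.filter fun P => 0 < P.natDegree).toFinset, ?_, ?_, ?_⟩
  · refine (Multiset.toFinset_card_le _).trans ?_
    have h0 : (0 : ℤ[X][X]) ∉ M := fun h => (UniqueFactorizationMonoid.prime_of_factor _ h).ne_zero rfl
    have h1 : F.natDegree = (M.map natDegree).sum := by
      rw [← hu, natDegree_mul (by
        intro h2
        rw [h2, zero_mul] at hu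
        exact hF hu.symm) u.ne_zero, natDegree_multiset_prod _ h0]
      have h3 : (u : ℤ[X][X]).natDegree = 0 := natDegree_eq_zero_of_isUnit u.isUnit
      omega
    rw [h1]
    have h4 : ∀ N : Multiset ℤ[X][X], (N.filter fun P => 0 < P.natDegree).card ≤ (N.map natDegree).sum := by
      intro N
      induction N using Multiset.induction_on with
      | empty => simp
      | cons a N ih =>
        rw [Multiset.map_cons, Multiset.sum_cons, Multiset.filter_cons, Multiset.card_add]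
        split_ifs with ha
        · simp only [Multiset.card_singleton]; omega
        · simp only [Multiset.card_zero]; omega
    exact h4 M
  · intro P hP
    rw [Multiset.mem_toFinset, Multiset.mem_filter] at hP
    exact ⟨UniqueFactorizationMonoid.prime_of_factor P hP.1, hP.2⟩
  · intro P hP hdeg hPF
    obtain ⟨Q, hQ, hPQ⟩ := UniqueFactorizationMonoid.exists_mem_factors_of_dvd hF hP.irreducible hPF
    refine ⟨Q, ?_, hPQ⟩
    rw [Multiset.mem_toFinset, Multiset.mem_filter]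
    refine ⟨hQ, ?_⟩
    obtain ⟨v, hv⟩ := hPQ
    have h5 : Q.natDegree = P.natDegree := by
      rw [← hv, natDegree_mul hP.ne_zero v.ne_zero, natDegree_eq_zero_of_isUnit v.isUnit, add_zero]
    omega

/-- **Uniqueness of near relations.** -/
theorem unique_relation (k : ℕ) (hk : 1 ≤ k) (κ T : ℝ) (hκ : 4 * (k : ℝ) ^ 3 + 2 * k < κ) (hT : 1 ≤ T) :
    ∃ H₀ : ℝ, 1 ≤ H₀ ∧ ∀ H θ : ℝ, H₀ ≤ H → |θ| ≤ T → ∃ P : ℤ[X][X], Irreducible P ∧ 0 < P.natDegree ∧
      ∀ F, Bd k H F → |ev θ F| ≤ H ^ (-κ) → P ∣ F := by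
  obtain ⟨η, hη⟩ : ∃ η : ℝ, η = (κ - (4 * (k : ℝ) ^ 3 + 2 * k)) / 2 := ⟨_, rfl⟩
  have hη0 : 0 < η := by rw [hη]; linarith
  obtain ⟨c, hc, hbasic⟩ := basic k hk η T hη0 hT
  obtain ⟨c', hc', hmeas⟩ := Pool.Agent.W472.AC.e_measP k η hη0
  have hk1 : (1 : ℝ) ≤ k := by exact_mod_cast hk
  obtain ⟨E, hE⟩ : ∃ E : ℝ, E = 4 * (k : ℝ) ^ 3 + 2 * k + η := ⟨_, rfl⟩
  have hE0 : 0 < E := by rw [hE]; positivity
  obtain ⟨Ck, hCk⟩ : ∃ Ck : ℝ, Ck = ((k : ℝ) + 1) ^ 2 := ⟨_, rfl⟩
  have hCk1 : 1 ≤ Ck := by rw [hCk]; nlinarith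
  -- the choice of `H₀`
  have t1 : Filter.Tendsto (fun H : ℝ => Ck ^ E * Ck * H ^ (-η)) Filter.atTop (nhds 0) := by
    simpa using (tendsto_rpow_neg_atTop hη0).const_mul (Ck ^ E * Ck)
  obtain ⟨H₁, hH₁⟩ := Filter.eventually_atTop.1 ((t1.eventually (gt_mem_nhds (lt_min hc hc'))))
  refine ⟨max H₁ 1, le_max_right _ _, fun H θ hH hθ => ?_⟩
  have hH1 : 1 ≤ H := (le_max_right _ _).trans hH
  have hH0 : 0 < H := by linarith
  have hsmall := hH₁ H ((le_max_left _ _).trans hH)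
  have hCE : 1 ≤ Ck ^ E := Real.one_le_rpow hCk1 hE0.le
  have hκ0 : κ = E + η := by rw [hE, hη]; ring
  by_contra hcon
  push Not at hcon
  -- a first near relation
  obtain ⟨F, hF1, hF2, hF3⟩ := hcon X irreducible_X (by simp)
  have hF0 : F ≠ 0 := fun h => hF3 (by rw [h]; exact dvd_zero _)
  have hFdeg : 0 < F.natDegree := by
    rw [Nat.pos_iff_ne_zero]
    intro h0
    have e1 := eq_C_of_natDegree_eq_zero h0
    have h1 : F.coeff 0 ≠ 0 := by
      intro h2
      rw [h2, C_0] at e1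
      exact hF0 e1
    have h2 := hmeas (F.coeff 0) h1 (hF1.degc 0) H hH1 (hF1.ht 0)
    have e2 : ev θ F = aeval (Real.exp 1) (F.coeff 0) := by
      rw [e1, ev, map_C, eval_C, coeff_C_zero]
      rfl
    rw [← e2] at h2
    have h3 : H ^ ((k : ℝ) + η) * |ev θ F| ≤ H ^ E * H ^ (-κ) := by
      gcongr
      rw [hE]
      nlinarith [pow_le_pow_left₀ (by norm_num : (0:ℝ) ≤ 1) hk1 3]
    have h4 : H ^ E * H ^ (-κ) = H ^ (-η) := by
      rw [← Real.rpow_add hH0, hκ0]; congr 1; ring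
    rw [h4] at h3
    have h5 : H ^ (-η) ≤ Ck ^ E * Ck * H ^ (-η) := by
      have h51 : 0 < H ^ (-η) := by positivity
      have h52 : 1 ≤ Ck ^ E * Ck := by nlinarith
      nlinarith
    have h6 := lt_of_lt_of_le hsmall (min_le_right c c')
    linarith
  obtain ⟨S, hS1, hS2, hS3⟩ := card_factors hF0
  obtain ⟨G, hG1, hG2, hG3⟩ := generic (k := k) (H := H) (δ := H ^ (-κ)) (θ := θ) hH0.le (by positivity) S hS2
    (fun P hP => by
      obtain ⟨F', h1, h2, h3⟩ := hcon P (hS2 P hP).1.irreducible (hS2 P hP).2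
      exact ⟨F', h1, h2, h3⟩)
  have hres : resultant F G F.natDegree G.natDegree ≠ 0 := by
    refine res_ne_zero hF0 fun P hP hdeg hPF hPG => ?_
    obtain ⟨Q, hQ, hPQ⟩ := hS3 P hP hdeg hPF
    exact hG3 Q hQ (hPQ.symm.dvd.trans hPG)
  have hSk : (S.card : ℝ) ≤ k := by exact_mod_cast hS1.trans hF1.deg
  have hSC : ((S.card : ℝ) + 1) ^ 2 ≤ Ck := by
    have hs0 : (0 : ℝ) ≤ S.card := Nat.cast_nonneg _
    rw [hCk]
    exact pow_le_pow_left₀ (by linarith) (by linarith) 2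
  have hpow : 0 < H ^ (-κ) := by positivity
  have h7 := hbasic (Ck * H) (Ck * H ^ (-κ)) θ F G (by nlinarith) hθ (hF1.mono (by nlinarith))
    (hG1.mono (mul_le_mul_of_nonneg_right hSC hH0.le)) (by omega) (hF2.trans (by nlinarith))
    (hG2.trans (mul_le_mul_of_nonneg_right hSC hpow.le)) hres
  rw [← hE, Real.mul_rpow (by linarith) hH0.le] at h7
  have h8 : Ck ^ E * H ^ E * (Ck * H ^ (-κ)) = Ck ^ E * Ck * H ^ (-η) := by
    have : H ^ E * H ^ (-κ) = H ^ (-η) := by
      rw [← Real.rpow_add hH0, hκ0]; congr 1; ring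
    rw [← this]; ring
  rw [h8] at h7
  have h9 := lt_of_lt_of_le hsmall (min_le_left c c')
  linarith

end Pool.Agent.T2H33.NR
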