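import Mathlib
import Pool.Agent.T2H33.NR

/-!
# Factors of near relations, and a criterion for algebraic dependence
-/

set_option autoImplicit false

open Polynomial

namespace Pool.Agent.T2H33.NR

/-- coefficients of a factor (as in the starting file `Pool/Agent/R356/Joint.lean`) -/
lemma height_factor (D : ℕ) (A B : ℤ[X]) (hA : A ≠ 0) (hB : B ≠ 0) (hD : (A * B).natDegree ≤ D)
    (H : ℝ) (hH : ∀ k, |(((A * B).coeff k : ℤ) : ℝ)| ≤ H) (k : ℕ) :
    |((A.coeff k : ℤ) : ℝ)| ≤ 2 ^ D * (D + 1) * H := by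
  have hH0 : 0 ≤ H := (abs_nonneg _).trans (hH 0)
  have hAB := natDegree_mul hA hB
  have h1 : |((A.coeff k : ℤ) : ℝ)| = ‖(A.map (Int.castRingHom ℂ)).coeff k‖ := by
    rw [coeff_map, eq_intCast, Complex.norm_intCast]
  have h2 := norm_coeff_le_choose_mul_mahlerMeasure_of_one_le_mahlerMeasure k
    (A.map (Int.castRingHom ℂ)) (B.map (Int.castRingHom ℂ)) (one_le_mahlerMeasure_of_ne_zero hB)
  rw [← Polynomial.map_mul] at h2
  have h3 : ((A * B).map (Int.castRingHom ℂ)).mahlerMeasure ≤ (D + 1) * H := by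
    refine (mahlerMeasure_le_sum_norm_coeff _).trans ?_
    rw [sum_def]
    have h4 : ((A * B).map (Int.castRingHom ℂ)).support ⊆ Finset.range (D + 1) := by
      intro i hi
      rw [Finset.mem_range]
      have h5 := le_natDegree_of_mem_supp i hi
      have h6 : ((A * B).map (Int.castRingHom ℂ)).natDegree ≤ (A * B).natDegree := natDegree_map_le
      omega
    calc ∑ n ∈ ((A * B).map (Int.castRingHom ℂ)).support, ‖((A * B).map (Int.castRingHom ℂ)).coeff n‖
        ≤ ∑ n ∈ Finset.range (D + 1), ‖((A * B).map (Int.castRingHom ℂ)).coeff n‖ :=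
          Finset.sum_le_sum_of_subset_of_nonneg h4 fun _ _ _ => norm_nonneg _
      _ ≤ ∑ _n ∈ Finset.range (D + 1), H := Finset.sum_le_sum fun i _ => by
          rw [coeff_map, eq_intCast, Complex.norm_intCast]
          exact hH i
      _ = _ := by
          rw [Finset.sum_const, Finset.card_range, nsmul_eq_mul]
          push_cast
          ring
  have h4 : (((A.map (Int.castRingHom ℂ)).natDegree.choose k : ℕ) : ℝ) ≤ 2 ^ D := by
    have h5 : (A.map (Int.castRingHom ℂ)).natDegree ≤ D := natDegree_map_le.trans (by omega)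
    have h6 : (A.map (Int.castRingHom ℂ)).natDegree.choose k ≤ 2 ^ D :=
      (Nat.choose_le_two_pow _ _).trans (Nat.pow_le_pow_right (by norm_num) h5)
    exact_mod_cast h6
  rw [h1]
  refine h2.trans ?_
  calc _ ≤ (2 : ℝ) ^ D * ((D + 1) * H) := mul_le_mul h4 h3 (mahlerMeasure_nonneg _) (by positivity)
    _ = _ := by ring

open Bivariate in
theorem coeff_swap (P : ℤ[X][X]) (i j : ℕ) : ((swap P).coeff i).coeff j = (P.coeff j).coeff i := by
  induction P using Polynomial.induction_on' with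
  | add p q hp hq => simp only [map_add, coeff_add, hp, hq]
  | monomial n a =>
    induction a using Polynomial.induction_on' with
    | add p q hp hq => simp only [map_add, coeff_add, hp, hq]
    | monomial m r =>
      rw [swap_monomial_monomial]
      simp only [coeff_monomial]
      by_cases h1 : m = i <;> by_cases h2 : n = j <;> simp [h1, h2, coeff_monomial]

/-- the degree in the inner variable -/
noncomputable def dI (P : ℤ[X][X]) : ℕ := (Bivariate.swap P).natDegree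

lemma natDegree_coeff_le (P : ℤ[X][X]) (j : ℕ) : (P.coeff j).natDegree ≤ dI P := by
  rw [natDegree_le_iff_coeff_eq_zero]
  intro N hN
  rw [← coeff_swap]
  rw [coeff_eq_zero_of_natDegree_lt hN, coeff_zero]

lemma dI_le (P : ℤ[X][X]) (e : ℕ) (h : ∀ j, (P.coeff j).natDegree ≤ e) : dI P ≤ e := by
  rw [dI, natDegree_le_iff_coeff_eq_zero]
  intro N hN
  ext j
  rw [coeff_swap, coeff_zero]
  exact coeff_eq_zero_of_natDegree_lt (lt_of_le_of_lt (h j) hN)

lemma swap_ne_zero {P : ℤ[X][X]} (h : P ≠ 0) : Bivariate.swap P ≠ 0 := by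
  intro h0
  apply h
  rw [← Bivariate.swap_swap_apply P, h0, map_zero]

lemma dI_mul {P Q : ℤ[X][X]} (hP : P ≠ 0) (hQ : Q ≠ 0) : dI (P * Q) = dI P + dI Q := by
  rw [dI, map_mul, natDegree_mul (swap_ne_zero hP) (swap_ne_zero hQ)]
  rfl

/-- Kronecker substitution -/
lemma kron_coeff (M : ℕ) (F : ℤ[X][X]) (hM : dI F < M) (i j : ℕ) (hj : j < M) :
    (F.eval (X ^ M)).coeff (i * M + j) = (F.coeff i).coeff j := by
  rw [eval_eq_sum_range, finsetSum_coeff]
  have hterm : ∀ i' : ℕ, (F.coeff i' * (X ^ M) ^ i').coeff (i * M + j) = if i' = i then (F.coeff i).coeff j else 0 := by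
    intro i'
    rw [← pow_mul, coeff_mul_X_pow']
    have hdeg := natDegree_coeff_le F i'
    rcases lt_trichotomy i' i with h | h | h
    · have h1 : M * i' + M ≤ i * M + j := by nlinarith
      rw [if_pos (by omega), if_neg (by omega)]
      refine coeff_eq_zero_of_natDegree_lt ?_
      omega
    · subst h
      have e : M * i' = i' * M := mul_comm _ _
      rw [if_pos (by omega), if_pos rfl]
      congr 1
      omega
    · have h1 : i * M + M ≤ M * i' := by nlinarith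
      rw [if_neg (by omega), if_neg (by omega)]
  simp only [hterm]
  rw [Finset.sum_ite_eq' (Finset.range (F.natDegree + 1)) i]
  split_ifs with h
  · rfl
  · rw [Finset.mem_range, not_lt] at h
    rw [coeff_eq_zero_of_natDegree_lt (show F.natDegree < i by omega), coeff_zero]

/-- coefficients of a factor in two variables -/
lemma bd_factor {k : ℕ} {H : ℝ} {P Q : ℤ[X][X]} (hP : P ≠ 0) (hQ : Q ≠ 0) (hF : Bd k H (P * Q)) :
    Bd k (2 ^ (k ^ 2 + 2 * k) * (((k ^ 2 + 2 * k : ℕ) : ℝ) + 1) * H) P := by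
  have hH0 : 0 ≤ H := (abs_nonneg _).trans (hF.ht 0 0)
  have hdeg := natDegree_mul hP hQ
  have hdI := dI_mul hP hQ
  have hdI' : dI (P * Q) ≤ k := dI_le _ _ hF.degc
  have hk1 := hF.deg
  have hPI : dI P ≤ k := by omega
  have hQI : dI Q ≤ k := by omega
  refine ⟨by omega, fun i => (natDegree_coeff_le P i).trans hPI, fun i j => ?_⟩
  rcases Nat.lt_or_ge j (k + 1) with hj | hj
  · rw [← kron_coeff (k + 1) P (by omega) i j hj]
    have e : P.eval (X ^ (k + 1)) * Q.eval (X ^ (k + 1)) = (P * Q).eval (X ^ (k + 1)) := (eval_mul).symm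
    have ne : ∀ R : ℤ[X][X], R ≠ 0 → dI R ≤ k → R.eval (X ^ (k + 1)) ≠ 0 := by
      intro R hR hRI h0
      apply hR
      ext i j
      rcases Nat.lt_or_ge j (k + 1) with hj | hj
      · rw [← kron_coeff (k + 1) R (by omega) i j hj, h0]; simp
      · have := natDegree_coeff_le R i
        rw [coeff_eq_zero_of_natDegree_lt (show (R.coeff i).natDegree < j by omega)]; simp
    have hcoef : ∀ m, |((((P * Q).eval (X ^ (k + 1))).coeff m : ℤ) : ℝ)| ≤ H := by
      intro m
      have e2 : m = (m / (k + 1)) * (k + 1) + m % (k + 1) := (Nat.div_add_mod' m (k + 1)).symm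
      rw [e2, kron_coeff (k + 1) (P * Q) (by omega) _ _ (Nat.mod_lt _ (by omega))]
      exact hF.ht _ _
    have hD : ((P * Q).eval (X ^ (k + 1))).natDegree ≤ k ^ 2 + 2 * k := by
      rw [natDegree_le_iff_coeff_eq_zero]
      intro m hm
      have e2 : m = (m / (k + 1)) * (k + 1) + m % (k + 1) := (Nat.div_add_mod' m (k + 1)).symm
      rw [e2, kron_coeff (k + 1) (P * Q) (by omega) _ _ (Nat.mod_lt _ (by omega))]
      have h1 : k < m / (k + 1) := by
        rw [Nat.lt_iff_add_one_le, Nat.le_div_iff_mul_le (by omega)]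
        nlinarith
      rw [coeff_eq_zero_of_natDegree_lt (show (P * Q).natDegree < m / (k + 1) by omega), coeff_zero]
    rw [← e] at hcoef hD
    exact height_factor _ _ _ (ne P hP hPI) (ne Q hQ hQI) hD H hcoef _
  · have := natDegree_coeff_le P i
    rw [coeff_eq_zero_of_natDegree_lt (show (P.coeff i).natDegree < j by omega)]
    simp
    positivity

/-- a product is small only if one of the nonconstant factors is small -/
lemma small_factor {θ ε : ℝ} (hε : 0 < ε) (hε1 : ε ≤ 1) {m : ℕ} {F : ℤ[X][X]} (hF : F ≠ 0) (hm : F.natDegree + dI F ≤ m)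
    (h : |ev θ F| < ε ^ m) : ∃ P, Prime P ∧ P ∣ F ∧ |ev θ P| < ε := by
  by_contra hcon
  push Not at hcon
  have key : ∀ s : Multiset ℤ[X][X], (∀ P ∈ s, Prime P ∧ P ∣ F) →
      ε ^ (s.prod.natDegree + dI s.prod) ≤ |ev θ s.prod| := by
    intro s
    induction s using Multiset.induction_on with
    | empty =>
      intro _
      simp only [Multiset.prod_zero, natDegree_one, ev]
      simp [dI]
    | cons P s ih =>
      intro hs
      rw [Multiset.prod_cons]
      obtain ⟨hP, hPF⟩ := hs P (Multiset.mem_cons_self P s)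
      have hs' : ∀ P ∈ s, Prime P ∧ P ∣ F := fun Q hQ => hs Q (Multiset.mem_cons_of_mem hQ)
      have hs0 : s.prod ≠ 0 := by
        intro h0
        rw [Multiset.prod_eq_zero_iff] at h0
        exact (hs' 0 h0).1.ne_zero rfl
      have ih' := ih hs'
      rw [natDegree_mul hP.ne_zero hs0, dI_mul hP.ne_zero hs0, ev_mul, abs_mul,
        show P.natDegree + s.prod.natDegree + (dI P + dI s.prod) = (P.natDegree + dI P) + (s.prod.natDegree + dI s.prod) by ring,
        pow_add]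
      refine mul_le_mul ?_ ih' (by positivity) (abs_nonneg _)
      have h1 := hcon P hP hPF
      rcases Nat.eq_zero_or_pos (P.natDegree + dI P) with h0 | h0
      · rw [h0, pow_zero]
        have e1 : P = C (P.coeff 0) := eq_C_of_natDegree_eq_zero (by omega)
        have e2 : P.coeff 0 = C ((P.coeff 0).coeff 0) := by
          have := natDegree_coeff_le P 0
          exact eq_C_of_natDegree_eq_zero (by omega)
        rw [e2] at e1
        have h2 : (P.coeff 0).coeff 0 ≠ 0 := by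
          intro h3
          rw [h3] at e1
          simp at e1
          exact hP.ne_zero e1
        rw [e1, ev_int]
        exact_mod_cast Int.one_le_abs h2
      · calc ε ^ (P.natDegree + dI P) ≤ ε ^ 1 := pow_le_pow_of_le_one hε.le hε1 h0
          _ = ε := pow_one ε
          _ ≤ _ := h1
  obtain ⟨u, hu⟩ := UniqueFactorizationMonoid.factors_prod hF
  have h1 := key (UniqueFactorizationMonoid.factors F) (fun P hP =>
    ⟨UniqueFactorizationMonoid.prime_of_factor P hP, UniqueFactorizationMonoid.dvd_of_mem_factors hP⟩)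
  set s := (UniqueFactorizationMonoid.factors F).prod with hs
  have hs0 : s ≠ 0 := by
    intro h0
    rw [h0, zero_mul] at hu
    exact hF hu.symm
  have hev : |ev θ F| = |ev θ s| := by
    rw [← hu, ev_mul, abs_mul]
    have hunit : ∃ n : ℤ, IsUnit n ∧ (u : ℤ[X][X]) = C (C n) := by
      obtain ⟨a, ha, hau⟩ := Polynomial.isUnit_iff.1 u.isUnit
      obtain ⟨n, hn, hna⟩ := Polynomial.isUnit_iff.1 ha
      exact ⟨n, hn, by rw [← hau, ← hna]⟩
    obtain ⟨n, hn, hun⟩ := hunit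
    rw [hun, ev_int]
    rcases Int.isUnit_iff.1 hn with rfl | rfl <;> simp
  have hdeg : s.natDegree + dI s ≤ m := by
    have h2 : F.natDegree = s.natDegree := by
      rw [← hu, natDegree_mul hs0 u.ne_zero, natDegree_eq_zero_of_isUnit u.isUnit, add_zero]
    have h3 : dI F = dI s := by
      rw [← hu, dI_mul hs0 u.ne_zero]
      have : dI (u : ℤ[X][X]) = 0 := by
        rw [dI]
        exact natDegree_eq_zero_of_isUnit (u.isUnit.map Bivariate.swap)
      rw [this, add_zero]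
    omega
  rw [hev] at h
  have h4 : ε ^ m ≤ ε ^ (s.natDegree + dI s) := pow_le_pow_of_le_one hε.le hε1 hdeg
  linarith

lemma abs_ev_assoc (θ : ℝ) {P Q : ℤ[X][X]} (h : Associated P Q) : |ev θ P| = |ev θ Q| := by
  obtain ⟨u, hu⟩ := h
  rw [← hu, ev_mul, abs_mul]
  obtain ⟨a, ha, hau⟩ := Polynomial.isUnit_iff.1 u.isUnit
  obtain ⟨n, hn, hna⟩ := Polynomial.isUnit_iff.1 ha
  rw [← hau, ← hna, ev_int]
  rcases Int.isUnit_iff.1 hn with rfl | rfl <;> simp

open Filter in
/-- **A criterion of Gelfond's type.** -/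
theorem criterion (k : ℕ) (hk : 1 ≤ k) (A κ θ : ℝ) (hA : 1 ≤ A) (hκ : 2 * k * (A * (4 * (k : ℝ) ^ 3 + 2 * k)) < κ)
    (H : ℕ → ℝ) (F : ℕ → ℤ[X][X]) (hH1 : ∀ n, 1 ≤ H n) (hlim : Tendsto H atTop atTop) (hmono : ∀ n, H n ≤ H (n + 1))
    (hgrow : ∀ n, H (n + 1) ≤ H n ^ A) (hF0 : ∀ n, F n ≠ 0) (hF : ∀ n, Bd k (H n) (F n))
    (hsmall : ∀ n, |ev θ (F n)| ≤ H n ^ (-κ)) :
    ∃ P, Irreducible P ∧ 0 < P.natDegree ∧ P.natDegree ≤ k ∧ (∀ i, (P.coeff i).natDegree ≤ k) ∧ ev θ P = 0 ∧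
      ∃ n₀, ∀ n, n₀ ≤ n → P ∣ F n := by
  have hk1 : (1 : ℝ) ≤ k := by exact_mod_cast hk
  obtain ⟨κ₀, hκ₀⟩ : ∃ κ₀ : ℝ, κ₀ = 4 * (k : ℝ) ^ 3 + 2 * k := ⟨_, rfl⟩
  rw [← hκ₀] at hκ
  have hκ₀0 : 0 < κ₀ := by rw [hκ₀]; positivity
  have hlt : A * κ₀ < κ / (2 * k) := by rw [lt_div_iff₀ (by positivity)]; linarith
  obtain ⟨κ', h1, h2⟩ := exists_between hlt
  have hlt2 : κ₀ < κ' / A := by rw [lt_div_iff₀ (by linarith)]; linarith
  obtain ⟨κ₁, h3, h4⟩ := exists_between hlt2
  rw [lt_div_iff₀ (by linarith)] at h4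
  have h5 : 2 * k * κ' < κ := by rw [lt_div_iff₀ (by positivity)] at h2; linarith
  have hκ₁0 : 0 < κ₁ := by linarith
  have hκ'0 : 0 < κ' := lt_of_le_of_lt (by positivity) h4
  obtain ⟨C, hC⟩ : ∃ C : ℝ, C = 2 ^ (k ^ 2 + 2 * k) * (((k ^ 2 + 2 * k : ℕ) : ℝ) + 1) := ⟨_, rfl⟩
  have hC1 : 1 ≤ C := by
    rw [hC]
    have e1 : (1 : ℝ) ≤ 2 ^ (k ^ 2 + 2 * k) := one_le_pow₀ (by norm_num)
    have e2 : (0 : ℝ) ≤ ((k ^ 2 + 2 * k : ℕ) : ℝ) := Nat.cast_nonneg _
    nlinarith
  obtain ⟨H₀, hH₀1, hH₀⟩ := unique_relation k hk κ₁ (max |θ| 1) (by rw [← hκ₀]; exact h3) (le_max_right _ _)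
  -- small factors
  have hex : ∀ᶠ n in atTop, ∃ P, Prime P ∧ P ∣ F n ∧ |ev θ P| < H n ^ (-κ') := by
    filter_upwards [hlim.eventually (eventually_gt_atTop 1)] with n hn
    have hn0 : 0 < H n := by linarith
    refine small_factor (θ := θ) (ε := H n ^ (-κ')) (m := 2 * k) (by positivity)
      (Real.rpow_le_one_of_one_le_of_nonpos hn.le (by linarith)) (hF0 n) ?_ (lt_of_le_of_lt (hsmall n) ?_)
    · have e1 := (hF n).deg
      have e2 := dI_le _ _ (hF n).degc
      omega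
    · rw [← Real.rpow_natCast, ← Real.rpow_mul hn0.le]
      refine Real.rpow_lt_rpow_of_exponent_lt hn ?_
      push_cast
      linarith
  have hbig : ∀ᶠ n in atTop, C ^ κ₁ * H n ^ (A * κ₁) ≤ H n ^ κ' := by
    have t1 : Tendsto (fun n => H n ^ (κ' - A * κ₁)) atTop atTop :=
      (tendsto_rpow_atTop (by linarith)).comp hlim
    filter_upwards [t1.eventually (eventually_ge_atTop (C ^ κ₁))] with n hn
    have hn0 : 0 < H n := by linarith [hH1 n]
    calc C ^ κ₁ * H n ^ (A * κ₁) ≤ H n ^ (κ' - A * κ₁) * H n ^ (A * κ₁) := by gcongr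
      _ = H n ^ κ' := by rw [← Real.rpow_add hn0]; congr 1; ring
  obtain ⟨n₁, hn₁⟩ := eventually_atTop.1 (hex.and (hbig.and (hlim.eventually (eventually_ge_atTop H₀))))
  choose! P hP using fun n (hn : n₁ ≤ n) => (hn₁ n hn).1
  have hbd : ∀ n, n₁ ≤ n → Bd k (C * H n) (P n) := by
    intro n hn
    obtain ⟨hp, ⟨Q, hQ⟩, -⟩ := hP n hn
    have hQ0 : Q ≠ 0 := by
      rintro rfl
      rw [mul_zero] at hQ
      exact hF0 n hQ
    rw [hC]
    exact bd_factor hp.ne_zero hQ0 (hQ ▸ hF n)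
  -- the near relations at the scale `C * H (n + 1)`
  have hev : ∀ n, n₁ ≤ n → |ev θ (P n)| ≤ (C * H (n + 1)) ^ (-κ₁) ∧ |ev θ (P n)| ≤ (C * H n) ^ (-κ₁) := by
    intro n hn
    have hn0 : 0 < H n := by linarith [hH1 n]
    have hn0' : 0 < H (n + 1) := by linarith [hH1 (n + 1)]
    have e1 := (hn₁ n hn).2.1
    have e2 := (hP n hn).2.2
    have key : ∀ Y : ℝ, 0 < Y → Y ≤ H n ^ A → |ev θ (P n)| ≤ (C * Y) ^ (-κ₁) := by
      intro Y hY hYA
      rw [Real.rpow_neg (by positivity)]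
      rw [Real.rpow_neg hn0.le] at e2
      refine e2.le.trans ?_
      have e3 : (C * Y) ^ κ₁ ≤ H n ^ κ' := by
        calc (C * Y) ^ κ₁ = C ^ κ₁ * Y ^ κ₁ := Real.mul_rpow (by linarith) hY.le
          _ ≤ C ^ κ₁ * (H n ^ A) ^ κ₁ := by gcongr
          _ = C ^ κ₁ * H n ^ (A * κ₁) := by rw [← Real.rpow_mul hn0.le]
          _ ≤ H n ^ κ' := e1
      gcongr
    refine ⟨key _ hn0' (hgrow n), key _ hn0 ?_⟩
    calc H n = H n ^ (1 : ℝ) := (Real.rpow_one _).symm
      _ ≤ H n ^ A := Real.rpow_le_rpow_of_exponent_le (hH1 n) hA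
  have hassoc : ∀ n, n₁ ≤ n → Associated (P n) (P (n + 1)) ∧ 0 < (P n).natDegree := by
    intro n hn
    have hle : H₀ ≤ C * H (n + 1) := by
      have := (hn₁ (n + 1) (by omega)).2.2
      nlinarith [hH1 (n + 1)]
    obtain ⟨R, hR1, hR2, hR3⟩ := hH₀ (C * H (n + 1)) θ hle (le_max_left _ _)
    have d1 : R ∣ P n := hR3 _ ((hbd n hn).mono (by
      have := hmono n
      have := hH1 n
      nlinarith)) (hev n hn).1
    have d2 : R ∣ P (n + 1) := hR3 _ (hbd (n + 1) (by omega)) (hev (n + 1) (by omega)).2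
    have a1 : Associated R (P n) := hR1.associated_of_dvd (hP n hn).1.irreducible d1
    have a2 : Associated R (P (n + 1)) := hR1.associated_of_dvd (hP (n + 1) (by omega)).1.irreducible d2
    refine ⟨a1.symm.trans a2, ?_⟩
    obtain ⟨u, hu⟩ := a1
    rw [← hu, natDegree_mul hR1.ne_zero u.ne_zero, natDegree_eq_zero_of_isUnit u.isUnit]
    omega
  have hall : ∀ n, n₁ ≤ n → Associated (P n₁) (P n) := by
    intro n hn
    induction n, hn using Nat.le_induction with
    | base => exact Associated.refl _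
    | succ n hn ih => exact ih.trans (hassoc n hn).1
  refine ⟨P n₁, (hP n₁ le_rfl).1.irreducible, (hassoc n₁ le_rfl).2, (hbd n₁ le_rfl).deg, (hbd n₁ le_rfl).degc, ?_, n₁,
    fun n hn => (hall n hn).dvd.trans (hP n hn).2.1⟩
  have hzero : Tendsto (fun n => H n ^ (-κ')) atTop (nhds 0) := (tendsto_rpow_neg_atTop hκ'0).comp hlim
  have hle : |ev θ (P n₁)| ≤ 0 := by
    refine ge_of_tendsto hzero ?_
    filter_upwards [eventually_ge_atTop n₁] with n hn
    rw [abs_ev_assoc θ (hall n hn)]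
    exact (hP n hn).2.2.le
  exact abs_eq_zero.1 (le_antisymm hle (abs_nonneg _))

open Filter in
/-- the criterion with all scales -/
theorem criterion' (k : ℕ) (hk : 1 ≤ k) (κ θ : ℝ) (hκ : 8 * (k : ℝ) ^ 4 + 4 * (k : ℝ) ^ 2 < κ)
    (h : ∀ᶠ H : ℝ in atTop, ∃ F, F ≠ 0 ∧ Bd k H F ∧ |ev θ F| ≤ H ^ (-κ)) :
    ∃ P, Irreducible P ∧ P.natDegree ≤ k ∧ (∀ i, (P.coeff i).natDegree ≤ k) ∧ ev θ P = 0 := by
  have hk1 : (1 : ℝ) ≤ k := by exact_mod_cast hk
  obtain ⟨κ₀, hκ₀⟩ : ∃ κ₀ : ℝ, κ₀ = 8 * (k : ℝ) ^ 4 + 4 * (k : ℝ) ^ 2 := ⟨_, rfl⟩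
  have hκ₀0 : 0 < κ₀ := by rw [hκ₀]; positivity
  rw [← hκ₀] at hκ
  have hlt : 1 < κ / κ₀ := by rwa [one_lt_div hκ₀0]
  obtain ⟨A, hA1, hA2⟩ := exists_between hlt
  rw [lt_div_iff₀ hκ₀0] at hA2
  obtain ⟨H₀, hH₀⟩ := eventually_atTop.1 h
  -- the sequence `2 ^ (n + m)`
  have t1 : Tendsto (fun n : ℕ => (2 : ℝ) ^ n) atTop atTop := tendsto_pow_atTop_atTop_of_one_lt (by norm_num)
  have t2 : Tendsto (fun n : ℕ => ((2 : ℝ) ^ n) ^ (A - 1)) atTop atTop := (tendsto_rpow_atTop (by linarith)).comp t1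
  obtain ⟨m, hm⟩ := eventually_atTop.1 ((t1.eventually (eventually_ge_atTop H₀)).and (t2.eventually (eventually_ge_atTop 2)))
  choose! F hF using hH₀
  have hgrow : ∀ n : ℕ, (2 : ℝ) ^ (n + 1 + m) ≤ (2 ^ (n + m)) ^ A := by
    intro n
    have e1 := (hm (n + m) (by omega)).2
    have e2 : (0 : ℝ) < 2 ^ (n + m) := by positivity
    calc (2 : ℝ) ^ (n + 1 + m) = 2 * 2 ^ (n + m) := by rw [← pow_succ']; congr 1; omega
      _ ≤ ((2 : ℝ) ^ (n + m)) ^ (A - 1) * 2 ^ (n + m) := by gcongr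
      _ = ((2 : ℝ) ^ (n + m)) ^ (A - 1 + 1) := by rw [Real.rpow_add e2, Real.rpow_one]
      _ = ((2 : ℝ) ^ (n + m)) ^ A := by congr 1; ring
  obtain ⟨P, h1, h2, h3, h4, h5, -⟩ := criterion k hk A κ θ hA1.le (by
      have : 2 * (k : ℝ) * (A * (4 * (k : ℝ) ^ 3 + 2 * k)) = A * κ₀ := by rw [hκ₀]; ring
      rw [this]; exact hA2) (fun n => 2 ^ (n + m)) (fun n => F (2 ^ (n + m)))
    (fun n => one_le_pow₀ (by norm_num)) (t1.comp (tendsto_add_atTop_nat m))
    (fun n => pow_le_pow_right₀ (by norm_num) (by omega)) hgrow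
    (fun n => (hF _ (hm (n + m) (by omega)).1).1) (fun n => (hF _ (hm (n + m) (by omega)).1).2.1)
    (fun n => (hF _ (hm (n + m) (by omega)).1).2.2)
  exact ⟨P, h1, h3, h4, h5⟩

end Pool.Agent.T2H33.NR
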