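import Mathlib

/-!
# Discrepancy of `n α` at a given scale and rational approximation
-/

set_option autoImplicit false

open Finset

namespace Pool.Agent.T2H33.EQ

open Classical in
/-- the number of the `n < N` with `β + n α` in `[s, t)` modulo `1` -/
noncomputable def cnt (α β : ℝ) (N : ℕ) (s t : ℝ) : ℕ :=
  ((range N).filter fun n : ℕ => s ≤ Int.fract (β + n * α) ∧ Int.fract (β + n * α) < t).card

/-- the deviation is at most `C` for all shifts and intervals -/
def Dev (α : ℝ) (N : ℕ) (C : ℝ) : Prop :=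
  ∀ β s t : ℝ, 0 ≤ s → s ≤ t → t ≤ 1 → |(cnt α β N s t : ℝ) - (t - s) * N| ≤ C

lemma cnt_add (α β : ℝ) (M N : ℕ) (s t : ℝ) :
    cnt α β (M + N) s t = cnt α β M s t + cnt α (β + M * α) N s t := by
  classical
  simp only [cnt, card_filter, sum_range_add]
  congr 1
  refine sum_congr rfl fun n _ => ?_
  have h : β + ((M + n : ℕ) : ℝ) * α = β + M * α + n * α := by push_cast; ring
  rw [h]

lemma Dev.add {α : ℝ} {M N : ℕ} {C D : ℝ} (h : Dev α M C) (h' : Dev α N D) : Dev α (M + N) (C + D) := by
  intro β s t hs hst ht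
  have h1 := h β s t hs hst ht
  have h2 := h' (β + M * α) s t hs hst ht
  rw [cnt_add]
  have e : ((cnt α β M s t + cnt α (β + M * α) N s t : ℕ) : ℝ) - (t - s) * ((M + N : ℕ) : ℝ) =
      ((cnt α β M s t : ℝ) - (t - s) * M) + ((cnt α (β + M * α) N s t : ℝ) - (t - s) * N) := by
    push_cast; ring
  rw [e]
  exact (abs_add_le _ _).trans (add_le_add h1 h2)

lemma Dev.zero (α : ℝ) : Dev α 0 0 := by
  intro β s t _ _ _
  simp [cnt]

lemma Dev.mul {α : ℝ} {q : ℕ} {C : ℝ} (h : Dev α q C) (k : ℕ) : Dev α (k * q) (k * C) := by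
  induction k with
  | zero => simpa using Dev.zero α
  | succ k ih =>
    have := ih.add h
    convert this using 1
    · ring
    · push_cast; ring

lemma Dev.mono {α : ℝ} {N : ℕ} {C D : ℝ} (h : Dev α N C) (hCD : C ≤ D) : Dev α N D :=
  fun β s t hs hst ht => (h β s t hs hst ht).trans hCD

open Classical in
/-- the number of points in an arc, for the denominator of an approximation -/
lemma arc (α : ℝ) (r : ℚ) (h : |α - r| ≤ 1 / (r.den : ℝ) ^ 2) (β u l : ℝ) (hl : 0 ≤ l) :
    (((range r.den).filter fun n : ℕ => ∃ k : ℤ, u ≤ β + n * α - k ∧ β + n * α - k < u + l).card : ℝ) ≤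
      r.den * l + 3 := by
  set q := r.den with hq
  have hq0 : (0 : ℝ) < q := by exact_mod_cast r.den_pos
  have hrq : (r : ℝ) = (r.num : ℝ) / q := by
    rw [hq]
    exact_mod_cast (Rat.num_div_den r).symm
  set S := (range q).filter fun n : ℕ => ∃ k : ℤ, u ≤ β + n * α - k ∧ β + n * α - k < u + l with hS
  have hk : ∀ n : ℕ, ∃ k : ℤ, n ∈ S → (u ≤ β + n * α - k ∧ β + n * α - k < u + l) := by
    intro n
    by_cases hn : n ∈ S
    · obtain ⟨k, hk⟩ := (mem_filter.1 hn).2
      exact ⟨k, fun _ => hk⟩
    · exact ⟨0, fun h => absurd h hn⟩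
  choose k hk using hk
  let m : ℕ → ℤ := fun n => n * r.num - q * k n
  have hinj : Set.InjOn m (S : Set ℕ) := by
    intro n hn n' hn' hm
    have hn1 := mem_range.1 (mem_filter.1 hn).1
    have hn2 := mem_range.1 (mem_filter.1 hn').1
    simp only [m] at hm
    have h1 : (q : ℤ) ∣ ((n : ℤ) - n') * r.num := ⟨k n - k n', by linear_combination hm⟩
    have h2 : IsCoprime (q : ℤ) r.num := by
      rw [Int.isCoprime_iff_nat_coprime, Int.natAbs_natCast]
      exact r.reduced.symm
    have h3 : (q : ℤ) ∣ (n : ℤ) - n' := h2.dvd_of_dvd_mul_right h1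
    have h4 : (n : ℤ) - n' = 0 := by
      refine Int.eq_zero_of_abs_lt_dvd h3 ?_
      rw [abs_lt]
      constructor <;> omega
    omega
  have hval : ∀ n ∈ S, (q : ℝ) * (β + n * α - k n) = q * β + m n + n * (q * (α - r)) := by
    intro n _
    simp only [m]
    push_cast
    rw [hrq]
    field_simp
    ring
  have hsmall : ∀ n ∈ S, |(n : ℝ) * (q * (α - r))| < 1 := by
    intro n hn
    have hn1 : (n : ℝ) < q := by exact_mod_cast mem_range.1 (mem_filter.1 hn).1
    have hn0 : (0 : ℝ) ≤ n := Nat.cast_nonneg n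
    rw [abs_mul, abs_mul, abs_of_nonneg hn0, abs_of_pos hq0]
    calc (n : ℝ) * (q * |α - r|) ≤ n * (q * (1 / (q : ℝ) ^ 2)) := by gcongr
      _ = n / q := by field_simp
      _ < 1 := by rwa [div_lt_one hq0]
  set L : ℤ := ⌈q * (u - β) - 1⌉ with hL
  set U : ℤ := ⌈q * (u + l - β) + 1⌉ with hU
  have hmaps : ∀ n ∈ S, m n ∈ Ico L U := by
    intro n hn
    obtain ⟨h1, h2⟩ := hk n hn
    have h3 := hval n hn
    have h4 := abs_lt.1 (hsmall n hn)
    have h5 : (q : ℝ) * u ≤ q * (β + n * α - k n) := by gcongr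
    have h6 : (q : ℝ) * (β + n * α - k n) < q * (u + l) := by gcongr
    rw [mem_Ico]
    constructor
    · rw [hL, Int.ceil_le]
      linarith [h4.2]
    · rw [hU, Int.lt_ceil]
      linarith [h4.1]
  have hcard : S.card ≤ (Ico L U).card := card_le_card_of_injOn m hmaps hinj
  rw [Int.card_Ico] at hcard
  have hUL : (U : ℝ) - L ≤ q * l + 3 := by
    have h1 := Int.ceil_lt_add_one (q * (u + l - β) + 1)
    have h2 := Int.le_ceil (q * (u - β) - 1)
    rw [← hU] at h1
    rw [← hL] at h2
    linarith
  have h0 : (0 : ℝ) ≤ q * l + 3 := by positivity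
  have h7 : (((U - L).toNat : ℕ) : ℝ) ≤ q * l + 3 := by
    rcases le_total 0 (U - L) with h | h
    · have : (((U - L).toNat : ℕ) : ℤ) = U - L := Int.toNat_of_nonneg h
      have h8 : (((U - L).toNat : ℕ) : ℝ) = (U : ℝ) - L := by exact_mod_cast this
      rw [h8]
      exact hUL
    · rw [Int.toNat_of_nonpos h]
      simpa using h0
  exact (by exact_mod_cast hcard : (S.card : ℝ) ≤ ((U - L).toNat : ℕ)).trans h7

/-- blocks of the length of a denominator -/
lemma block (α : ℝ) (r : ℚ) (h : |α - r| ≤ 1 / (r.den : ℝ) ^ 2) : Dev α r.den 3 := by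
  classical
  intro β s t hs hst ht
  have h1 := arc α r h β s (t - s) (by linarith)
  have h2 := arc α r h β t (1 - (t - s)) (by linarith)
  have hup : cnt α β r.den s t ≤
      ((range r.den).filter fun n : ℕ => ∃ k : ℤ, s ≤ β + n * α - k ∧ β + n * α - k < s + (t - s)).card := by
    rw [cnt]
    refine card_le_card ?_
    intro n hn
    rw [mem_filter] at hn ⊢
    refine ⟨hn.1, ⌊β + n * α⌋, ?_, ?_⟩
    · rw [Int.self_sub_floor]; exact hn.2.1
    · rw [Int.self_sub_floor]; linarith [hn.2.2]
  have hdown : r.den - cnt α β r.den s t ≤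
      ((range r.den).filter fun n : ℕ => ∃ k : ℤ, t ≤ β + n * α - k ∧ β + n * α - k < t + (1 - (t - s))).card := by
    have e : r.den - cnt α β r.den s t =
        ((range r.den).filter fun n : ℕ => ¬ (s ≤ Int.fract (β + n * α) ∧ Int.fract (β + n * α) < t)).card := by
      have := card_filter_add_card_filter_not (s := range r.den)
        (fun n : ℕ => s ≤ Int.fract (β + n * α) ∧ Int.fract (β + n * α) < t)
      rw [card_range] at this
      rw [cnt]
      omega
    rw [e]
    refine card_le_card ?_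
    intro n hn
    rw [mem_filter] at hn ⊢
    refine ⟨hn.1, ?_⟩
    have h3 := Int.fract_nonneg (β + n * α)
    have h4 := Int.fract_lt_one (β + n * α)
    by_cases h5 : s ≤ Int.fract (β + n * α)
    · have h6 : t ≤ Int.fract (β + n * α) := by
        by_contra h7
        exact hn.2 ⟨h5, lt_of_not_ge h7⟩
      refine ⟨⌊β + n * α⌋, ?_, ?_⟩
      · rw [Int.self_sub_floor]; exact h6
      · rw [Int.self_sub_floor]; linarith
    · have h5' := lt_of_not_ge h5
      refine ⟨⌊β + n * α⌋ - 1, ?_, ?_⟩
      · have := Int.self_sub_floor (β + n * α)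
        push_cast
        linarith
      · have := Int.self_sub_floor (β + n * α)
        push_cast
        linarith
  have hle : cnt α β r.den s t ≤ r.den := by
    rw [cnt]
    exact (card_filter_le _ _).trans (card_range _).le
  have hup' : (cnt α β r.den s t : ℝ) ≤ r.den * (t - s) + 3 := le_trans (by exact_mod_cast hup) h1
  have hdown' : (r.den : ℝ) - cnt α β r.den s t ≤ r.den * (1 - (t - s)) + 3 := by
    refine le_trans ?_ h2
    have : ((r.den - cnt α β r.den s t : ℕ) : ℝ) = (r.den : ℝ) - cnt α β r.den s t := by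
      rw [Nat.cast_sub hle]
    rw [← this]
    exact_mod_cast hdown
  rw [abs_le]
  constructor <;> nlinarith

/-- `α` has a good rational approximation with denominator at most `Q` -/
def Bad (α Q τ : ℝ) : Prop := ∃ r : ℚ, (r.den : ℝ) ≤ Q ∧ r.den * |r.den * α - r.num| < τ

/-- without good approximations the deviation is small -/
lemma dev_of_not_bad {α : ℝ} {N : ℕ} {K : ℝ} (hK : 1 ≤ K) (h : ¬ Bad α (N / K) (1 / K)) :
    ∀ M : ℕ, 1 ≤ M → M ≤ N → Dev α M (3 * K * (Nat.log 2 M + 1)) := by
  intro M
  induction M using Nat.strong_induction_on with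
  | _ M ih =>
    intro hM hMN
    have hM0 : (0 : ℝ) < M := by exact_mod_cast hM
    obtain ⟨r, hr1, hr2⟩ := Real.exists_rat_abs_sub_le_and_den_le α (n := M) hM
    set q := r.den with hq
    have hq0 : (0 : ℝ) < q := by exact_mod_cast r.den_pos
    have hqM : (q : ℝ) ≤ M := by exact_mod_cast hr2
    have hblock : Dev α q 3 := by
      refine block α r (hr1.trans ?_)
      rw [← hq]
      gcongr
      nlinarith
    have hrq : (r : ℝ) = (r.num : ℝ) / q := by
      rw [hq]
      exact_mod_cast (Rat.num_div_den r).symm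
    have hqa : |(q : ℝ) * α - r.num| < 1 / M := by
      have e : (q : ℝ) * α - r.num = q * (α - r) := by
        rw [hrq]
        field_simp
      rw [e, abs_mul, abs_of_pos hq0]
      calc (q : ℝ) * |α - r| ≤ q * (1 / ((M + 1) * q)) := by gcongr
        _ = 1 / (M + 1) := by field_simp
        _ < 1 / M := by gcongr; linarith
    have hcost : (M : ℝ) / q ≤ K := by
      by_contra hcon
      rw [not_le, lt_div_iff₀ hq0] at hcon
      refine h ⟨r, ?_, ?_⟩
      · rw [← hq, le_div_iff₀ (by linarith)]
        have : (M : ℝ) ≤ N := by exact_mod_cast hMN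
        nlinarith
      · rw [← hq]
        calc (q : ℝ) * |(q : ℝ) * α - r.num| < q * (1 / M) := by gcongr
          _ = q / M := by ring
          _ ≤ 1 / K := by
            rw [div_le_div_iff₀ hM0 (by linarith)]
            nlinarith
    have hdiv : ((M / q : ℕ) : ℝ) ≤ K := (Nat.cast_div_le).trans hcost
    have hmul := hblock.mul (M / q)
    have hMq : M / q * q + M % q = M := Nat.div_add_mod' M q
    rcases Nat.eq_zero_or_pos (M % q) with h0 | h0
    · rw [h0, add_zero] at hMq
      rw [← hMq]
      rw [hMq] at hmul ⊢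
      refine hmul.mono ?_
      have h1 : (0 : ℝ) ≤ Nat.log 2 M := Nat.cast_nonneg _
      nlinarith
    · have hlt : M % q < M := by
        have h1 : M % q < q := Nat.mod_lt _ r.den_pos
        omega
      have hih := ih (M % q) hlt h0 (hlt.le.trans hMN)
      have hadd := hmul.add hih
      rw [hMq] at hadd
      refine hadd.mono ?_
      have h2 : 2 * (M % q) ≤ M := by
        have h3 : M % q < q := Nat.mod_lt _ r.den_pos
        have h4 : 1 ≤ M / q := Nat.div_pos hr2 r.den_pos
        nlinarith
      have h5 : Nat.log 2 (M % q) + 1 ≤ Nat.log 2 M := by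
        rw [← Nat.log_mul_base (by norm_num) h0.ne', mul_comm]
        exact Nat.log_mono_right h2
      have h6 : (Nat.log 2 (M % q) : ℝ) + 1 ≤ Nat.log 2 M := by exact_mod_cast h5
      nlinarith

end Pool.Agent.T2H33.EQ
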