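import Mathlib
import Pool.Agent.W472.AC.EMeas2
import Pool.Agent.T2H33.EQ

/-!
# Two badly distributed directions and the irrationality measure of `e`
-/

set_option autoImplicit false

open Polynomial

namespace Pool.Agent.T2H33.EQ

/-- the irrationality measure of `e` -/
lemma e_irr (η : ℝ) (hη : 0 < η) : ∃ c : ℝ, 0 < c ∧ ∀ m P : ℤ, m ≠ 0 →
    c ≤ (|(m : ℝ)|) ^ (1 + η) * |(m : ℝ) * Real.exp 1 - P| := by
  obtain ⟨c, hc, h⟩ := Pool.Agent.W472.AC.e_measP 1 η hη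
  refine ⟨min 1 (c / 4 ^ (1 + η)), by positivity, fun m P hm => ?_⟩
  have hm1 : (1 : ℝ) ≤ |(m : ℝ)| := by exact_mod_cast Int.one_le_abs hm
  rcases le_or_gt 1 |(m : ℝ) * Real.exp 1 - P| with h1 | h1
  · refine (min_le_left _ _).trans ?_
    have h2 : (1 : ℝ) ≤ (|(m : ℝ)|) ^ (1 + η) := Real.one_le_rpow hm1 (by linarith)
    nlinarith
  · refine (min_le_right _ _).trans ?_
    rw [div_le_iff₀ (by positivity)]
    have hP : |(P : ℝ)| ≤ 4 * |(m : ℝ)| := by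
      have h2 : (P : ℝ) = m * Real.exp 1 - (m * Real.exp 1 - P) := by ring
      rw [h2]
      refine (abs_sub _ _).trans ?_
      rw [abs_mul, abs_of_pos (Real.exp_pos 1)]
      have := Real.exp_one_lt_d9
      nlinarith
    have hc0 : (C m * X - C P : ℤ[X]).coeff 0 = -P := by
      rw [coeff_sub, coeff_C_mul, coeff_X_zero, coeff_C_zero]; ring
    have hc1 : (C m * X - C P : ℤ[X]).coeff 1 = m := by
      rw [coeff_sub, coeff_C_mul, coeff_X_one, coeff_C_succ]; ring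
    have hne : (C m * X - C P : ℤ[X]) ≠ 0 := by
      intro h0
      rw [h0, coeff_zero] at hc1
      exact hm hc1.symm
    have hdeg : (C m * X - C P : ℤ[X]).natDegree ≤ 1 := by
      compute_degree
    have hcoef : ∀ j, |(((C m * X - C P : ℤ[X]).coeff j : ℤ) : ℝ)| ≤ 4 * |(m : ℝ)| := by
      intro j
      rcases j with _ | _ | j
      · rw [hc0]; push_cast; rw [abs_neg]; exact hP
      · rw [zero_add, hc1]; linarith
      · have : (C m * X - C P : ℤ[X]).coeff (j + 1 + 1) = 0 :=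
          coeff_eq_zero_of_natDegree_lt (lt_of_le_of_lt hdeg (by omega))
        rw [this]
        simp
    have h3 := h _ hne hdeg (4 * |(m : ℝ)|) (by linarith) hcoef
    have h4 : aeval (Real.exp 1) (C m * X - C P : ℤ[X]) = (m : ℝ) * Real.exp 1 - P := by
      simp
    rw [h4, Real.mul_rpow (by norm_num) (by positivity), Nat.cast_one] at h3
    linarith

/-- two non-parallel directions with good rational approximations -/
lemma two_bad_aux {c η : ℝ} (hη : 0 < η) (hc : ∀ m P : ℤ, m ≠ 0 →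
    c ≤ (|(m : ℝ)|) ^ (1 + η) * |(m : ℝ) * Real.exp 1 - P|) {θ A Q τ : ℝ} {a b a' b' : ℤ}
    (ha : |(a : ℝ)| ≤ A) (hb : |(b : ℝ)| ≤ A) (ha' : |(a' : ℝ)| ≤ A) (hb' : |(b' : ℝ)| ≤ A)
    (hdet : a * b' - a' * b ≠ 0) {r r' : ℚ} (hrr : r.den ≤ r'.den) (hQ : (r'.den : ℝ) ≤ Q)
    (h : r.den * |r.den * (a * θ + b * Real.exp 1) - r.num| < τ)
    (h' : r'.den * |r'.den * (a' * θ + b' * Real.exp 1) - r'.num| < τ) :
    c ≤ (2 * A ^ 2 * Q ^ 2) ^ η * (4 * A ^ 3 * Q ^ 2 * τ) := by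
  set q := r.den with hq
  set q' := r'.den with hq'
  have hq0 : (0 : ℝ) < q := by exact_mod_cast r.den_pos
  have hq0' : (0 : ℝ) < q' := by exact_mod_cast r'.den_pos
  have hqq : (q : ℝ) ≤ q' := by exact_mod_cast hrr
  have hA : 0 ≤ A := (abs_nonneg _).trans ha
  set D : ℤ := q * q' * (a' * b - a * b') with hD
  set P : ℤ := a' * q' * r.num - a * q * r'.num with hP
  have hD0 : D ≠ 0 := by
    rw [hD]
    refine mul_ne_zero (mul_ne_zero ?_ ?_) (fun h => hdet (by linarith))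
    · exact_mod_cast r.den_ne_zero
    · exact_mod_cast r'.den_ne_zero
  have h1 := hc D P hD0
  have hx : |(q : ℝ) * (a * θ + b * Real.exp 1) - r.num| ≤ τ / q := by
    rw [le_div_iff₀ hq0, mul_comm]; exact h.le
  have hx' : |(q' : ℝ) * (a' * θ + b' * Real.exp 1) - r'.num| ≤ τ / q' := by
    rw [le_div_iff₀ hq0', mul_comm]; exact h'.le
  have hτ : 0 < τ := lt_of_le_of_lt (by positivity) h
  have hDe : |(D : ℝ) * Real.exp 1 - P| ≤ 2 * A * q' * τ / q := by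
    have e : (D : ℝ) * Real.exp 1 - P = a' * q' * (q * (a * θ + b * Real.exp 1) - r.num) -
        a * q * (q' * (a' * θ + b' * Real.exp 1) - r'.num) := by
      rw [hD, hP]; push_cast; ring
    rw [e]
    refine (abs_sub _ _).trans ?_
    rw [abs_mul, abs_mul, abs_mul, abs_mul, abs_of_pos hq0, abs_of_pos hq0']
    have h2 : |(a' : ℝ)| * q' * |(q : ℝ) * (a * θ + b * Real.exp 1) - r.num| ≤ A * q' * (τ / q) := by gcongr
    have h3 : |(a : ℝ)| * q * |(q' : ℝ) * (a' * θ + b' * Real.exp 1) - r'.num| ≤ A * q * (τ / q') := by gcongr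
    have h4 : A * q * (τ / q') ≤ A * q' * (τ / q) := by gcongr
    calc _ ≤ A * q' * (τ / q) + A * q' * (τ / q) := by linarith
      _ = 2 * A * q' * τ / q := by ring
  have hDa : |(D : ℝ)| ≤ 2 * A ^ 2 * q * q' := by
    rw [hD]
    push_cast
    rw [abs_mul, abs_mul, abs_of_pos hq0, abs_of_pos hq0']
    have h2 : |(a' : ℝ) * b - a * b'| ≤ A * A + A * A := by
      refine (abs_sub _ _).trans ?_
      rw [abs_mul, abs_mul]
      gcongr
    calc (q : ℝ) * q' * |(a' : ℝ) * b - a * b'| ≤ q * q' * (A * A + A * A) := by gcongr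
      _ = 2 * A ^ 2 * q * q' := by ring
  have hD1 : (1 : ℝ) ≤ |(D : ℝ)| := by exact_mod_cast Int.one_le_abs hD0
  have h5 : (|(D : ℝ)|) ^ (1 + η) ≤ (2 * A ^ 2 * Q ^ 2) ^ η * (2 * A ^ 2 * q * q') := by
    rw [add_comm, Real.rpow_add (by linarith), Real.rpow_one]
    have h6 : |(D : ℝ)| ≤ 2 * A ^ 2 * Q ^ 2 := by
      refine hDa.trans ?_
      have : (q : ℝ) * q' ≤ Q ^ 2 := by
        rw [sq]; exact mul_le_mul (hqq.trans hQ) hQ hq0'.le (by linarith)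
      calc 2 * A ^ 2 * q * q' = 2 * A ^ 2 * (q * q') := by ring
        _ ≤ 2 * A ^ 2 * Q ^ 2 := by gcongr
    gcongr
  calc c ≤ (|(D : ℝ)|) ^ (1 + η) * |(D : ℝ) * Real.exp 1 - P| := h1
    _ ≤ ((2 * A ^ 2 * Q ^ 2) ^ η * (2 * A ^ 2 * q * q')) * (2 * A * q' * τ / q) := by gcongr
    _ = (2 * A ^ 2 * Q ^ 2) ^ η * (4 * A ^ 3 * q' ^ 2 * τ) := by field_simp; ring
    _ ≤ (2 * A ^ 2 * Q ^ 2) ^ η * (4 * A ^ 3 * Q ^ 2 * τ) := by gcongr

lemma two_bad {c η : ℝ} (hη : 0 < η) (hc : ∀ m P : ℤ, m ≠ 0 →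
    c ≤ (|(m : ℝ)|) ^ (1 + η) * |(m : ℝ) * Real.exp 1 - P|) {θ A Q τ : ℝ} {a b a' b' : ℤ}
    (ha : |(a : ℝ)| ≤ A) (hb : |(b : ℝ)| ≤ A) (ha' : |(a' : ℝ)| ≤ A) (hb' : |(b' : ℝ)| ≤ A)
    (hdet : a * b' - a' * b ≠ 0)
    (h : Bad (a * θ + b * Real.exp 1) Q τ) (h' : Bad (a' * θ + b' * Real.exp 1) Q τ) :
    c ≤ (2 * A ^ 2 * Q ^ 2) ^ η * (4 * A ^ 3 * Q ^ 2 * τ) := by
  obtain ⟨r, hr1, hr2⟩ := h
  obtain ⟨r', hr1', hr2'⟩ := h'
  rcases le_total r.den r'.den with hle | hle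
  · exact two_bad_aux hη hc ha hb ha' hb' hdet hle hr1' hr2 hr2'
  · exact two_bad_aux hη hc ha' hb' ha hb (fun h => hdet (by linarith)) hle hr1 hr2' hr2

/-- the asymptotic comparison -/
lemma eventually_small {δ d : ℝ} (hδ : 0 ≤ δ) (hd : 0 ≤ d) (h : δ + d < 1 / 3) :
    ∃ (d' η c : ℝ) (N₀ : ℕ), d < d' ∧ d' < 1 ∧ 0 < η ∧ 0 < c ∧ (∀ m P : ℤ, m ≠ 0 →
      c ≤ (|(m : ℝ)|) ^ (1 + η) * |(m : ℝ) * Real.exp 1 - P|) ∧ 1 ≤ N₀ ∧ ∀ N : ℕ, N₀ ≤ N →
      (2 * ((N : ℝ) ^ δ) ^ 2 * ((N : ℝ) ^ d') ^ 2) ^ η * (4 * ((N : ℝ) ^ δ) ^ 3 * ((N : ℝ) ^ d') ^ 2 *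
        (N : ℝ) ^ (d' - 1)) < c ∧
      3 * (N : ℝ) ^ (1 - d') * (Nat.log 2 N + 1) ≤ (N : ℝ) ^ (1 - d) := by
  obtain ⟨σ, hσ⟩ : ∃ σ : ℝ, σ = 1 - 3 * δ - 3 * d := ⟨_, rfl⟩
  have hσ0 : 0 < σ := by rw [hσ]; linarith
  obtain ⟨d', hd'⟩ : ∃ d' : ℝ, d' = d + σ / 6 := ⟨_, rfl⟩
  have h1 : 1 - 3 * δ - 3 * d' = σ / 2 := by rw [hd', hσ]; ring
  obtain ⟨η, hη⟩ : ∃ η : ℝ, η = σ / 4 := ⟨_, rfl⟩
  have hη0 : 0 < η := by rw [hη]; linarith
  obtain ⟨c, hc0, hc⟩ := e_irr η hη0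
  have hexp : (2 * δ + 2 * d') * η + (3 * δ + 3 * d' - 1) ≤ -(σ / 4) := by
    have h2 : 2 * δ + 2 * d' ≤ 1 := by linarith
    have h3 : (2 * δ + 2 * d') * η ≤ σ / 4 := by
      rw [hη]
      nlinarith
    linarith
  have t1 : Filter.Tendsto (fun N : ℕ => 4 * 2 ^ η * (N : ℝ) ^ (-(σ / 4))) Filter.atTop (nhds 0) := by
    have := ((tendsto_rpow_neg_atTop (show 0 < σ / 4 by linarith)).comp tendsto_natCast_atTop_atTop).const_mul
      (4 * (2 : ℝ) ^ η)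
    simpa using this
  have t2 : ∀ᶠ N : ℕ in Filter.atTop, 3 * ((Nat.log 2 N : ℝ) + 1) ≤ (N : ℝ) ^ (σ / 6) := by
    have hlog : (fun x : ℝ => 3 * (Real.log x / Real.log 2 + 1)) =o[Filter.atTop] fun x : ℝ => x ^ (σ / 6) := by
      have l1 := isLittleO_log_rpow_atTop (show 0 < σ / 6 by linarith)
      have l2 : (fun _ : ℝ => (1 : ℝ)) =o[Filter.atTop] fun x : ℝ => x ^ (σ / 6) := by
        rw [Asymptotics.isLittleO_const_left]
        right
        exact tendsto_norm_atTop_atTop.comp (tendsto_rpow_atTop (by linarith))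
      have l3 := (l1.const_mul_left (1 / Real.log 2)).add l2
      have l4 := l3.const_mul_left 3
      refine l4.congr_left fun x => ?_
      ring
    have h5 := (hlog.comp_tendsto tendsto_natCast_atTop_atTop).bound (show (0 : ℝ) < 1 by norm_num)
    filter_upwards [h5, Filter.eventually_ge_atTop 1] with N hN hN1
    simp only [Function.comp, one_mul] at hN
    have h6 : (Nat.log 2 N : ℝ) ≤ Real.log N / Real.log 2 := by
      have := Real.natLog_le_logb N 2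
      rwa [Real.logb, Nat.cast_ofNat] at this
    have h7 := (le_abs_self _).trans hN
    rw [Real.norm_of_nonneg (by positivity)] at h7
    linarith
  have t3 := t1.eventually (gt_mem_nhds hc0)
  obtain ⟨N₁, hN₁⟩ := Filter.eventually_atTop.1 (t3.and t2)
  refine ⟨d', η, c, max N₁ 1, by rw [hd']; linarith, by rw [hd']; linarith, hη0, hc0, hc, le_max_right _ _,
    fun N hN => ?_⟩
  have hN1 : (1 : ℝ) ≤ N := by exact_mod_cast (le_max_right _ _).trans hN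
  have hN0 : (0 : ℝ) < N := by linarith
  obtain ⟨h3, h4⟩ := hN₁ N ((le_max_left _ _).trans hN)
  constructor
  · refine lt_of_le_of_lt ?_ h3
    have e1 : 2 * ((N : ℝ) ^ δ) ^ 2 * ((N : ℝ) ^ d') ^ 2 = 2 * (N : ℝ) ^ (2 * δ + 2 * d') := by
      rw [← Real.rpow_natCast, ← Real.rpow_natCast, ← Real.rpow_mul hN0.le, ← Real.rpow_mul hN0.le, mul_assoc,
        ← Real.rpow_add hN0]
      congr 2
      push_cast; ring
    have e2 : 4 * ((N : ℝ) ^ δ) ^ 3 * ((N : ℝ) ^ d') ^ 2 * (N : ℝ) ^ (d' - 1) = 4 * (N : ℝ) ^ (3 * δ + 3 * d' - 1) := by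
      rw [← Real.rpow_natCast, ← Real.rpow_natCast, ← Real.rpow_mul hN0.le, ← Real.rpow_mul hN0.le, mul_assoc, mul_assoc,
        ← Real.rpow_add hN0, ← Real.rpow_add hN0]
      congr 2
      push_cast; ring
    rw [e1, e2, Real.mul_rpow (by norm_num) (by positivity), ← Real.rpow_mul hN0.le]
    calc (2 : ℝ) ^ η * (N : ℝ) ^ ((2 * δ + 2 * d') * η) * (4 * (N : ℝ) ^ (3 * δ + 3 * d' - 1))
        = 4 * 2 ^ η * (N : ℝ) ^ ((2 * δ + 2 * d') * η + (3 * δ + 3 * d' - 1)) := by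
          rw [Real.rpow_add hN0]; ring
      _ ≤ 4 * 2 ^ η * (N : ℝ) ^ (-(σ / 4)) := by
          gcongr
  · have e3 : (N : ℝ) ^ (1 - d) = (N : ℝ) ^ (1 - d') * (N : ℝ) ^ (σ / 6) := by
      rw [← Real.rpow_add hN0]
      congr 1
      rw [hd']; ring
    rw [e3]
    have h8 : (0 : ℝ) < (N : ℝ) ^ (1 - d') := by positivity
    nlinarith

/-- **Main theorem**: at every scale at most one primitive direction is badly distributed. -/
theorem main {δ d : ℝ} (hδ : 0 ≤ δ) (hd : 0 ≤ d) (h : δ + d < 1 / 3) :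
    ∃ N₀ : ℕ, ∀ θ : ℝ, ∀ N : ℕ, N₀ ≤ N → ∃ a₀ b₀ : ℤ, IsCoprime a₀ b₀ ∧ ∀ a b : ℤ,
      |(a : ℝ)| ≤ (N : ℝ) ^ δ → |(b : ℝ)| ≤ (N : ℝ) ^ δ → (¬ ∃ k : ℤ, a = k * a₀ ∧ b = k * b₀) →
      Dev (a * θ + b * Real.exp 1) N ((N : ℝ) ^ (1 - d)) := by
  obtain ⟨d', η, c, N₀, hdd', hd'1, hη, hc0, hc, hN₀, hN⟩ := eventually_small hδ hd h
  refine ⟨N₀, fun θ N hNN => ?_⟩
  obtain ⟨h1, h2⟩ := hN N hNN
  have hN1 : (1 : ℝ) ≤ N := by exact_mod_cast hN₀.trans hNN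
  have hN0 : (0 : ℝ) < N := by linarith
  have hK : 1 ≤ (N : ℝ) ^ (1 - d') := Real.one_le_rpow hN1 (by linarith)
  have eQ : (N : ℝ) / (N : ℝ) ^ (1 - d') = (N : ℝ) ^ d' := by
    rw [div_eq_iff (by positivity), ← Real.rpow_add hN0]
    simp
  have eτ : 1 / (N : ℝ) ^ (1 - d') = (N : ℝ) ^ (d' - 1) := by
    rw [one_div, ← Real.rpow_neg hN0.le]
    congr 1
    ring
  -- not bad implies good
  have good : ∀ α : ℝ, ¬ Bad α ((N : ℝ) ^ d') ((N : ℝ) ^ (d' - 1)) → Dev α N ((N : ℝ) ^ (1 - d)) := by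
    intro α hα
    have h3 := dev_of_not_bad (α := α) (N := N) hK (by rw [eQ, eτ]; exact hα) N (hN₀.trans hNN) le_rfl
    exact h3.mono h2
  by_cases hex : ∃ a b : ℤ, |(a : ℝ)| ≤ (N : ℝ) ^ δ ∧ |(b : ℝ)| ≤ (N : ℝ) ^ δ ∧ ¬ (a = 0 ∧ b = 0) ∧
      Bad (a * θ + b * Real.exp 1) ((N : ℝ) ^ d') ((N : ℝ) ^ (d' - 1))
  · obtain ⟨a', b', ha', hb', hne, hbad⟩ := hex
    have hg : (Int.gcd a' b' : ℤ) ≠ 0 := by
      intro h0
      rw [Nat.cast_eq_zero, Int.gcd_eq_zero_iff] at h0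
      exact hne h0
    obtain ⟨a₀, ha₀⟩ := Int.gcd_dvd_left a' b'
    obtain ⟨b₀, hb₀⟩ := Int.gcd_dvd_right a' b'
    have hcop : IsCoprime a₀ b₀ := by
      have h5 : (Int.gcd a' b' : ℤ) * Int.gcdA a' b' * 0 = 0 := by simp
      refine ⟨Int.gcdA a' b', Int.gcdB a' b', ?_⟩
      have h6 := Int.gcd_eq_gcd_ab a' b'
      refine mul_left_cancel₀ hg ?_
      calc (Int.gcd a' b' : ℤ) * (Int.gcdA a' b' * a₀ + Int.gcdB a' b' * b₀)
          = (Int.gcd a' b' * a₀) * Int.gcdA a' b' + (Int.gcd a' b' * b₀) * Int.gcdB a' b' := by ring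
        _ = a' * Int.gcdA a' b' + b' * Int.gcdB a' b' := by rw [← ha₀, ← hb₀]
        _ = Int.gcd a' b' * 1 := by rw [← h6, mul_one]
    refine ⟨a₀, b₀, hcop, fun a b ha hb hk => good _ fun hbad' => ?_⟩
    have hdet : a * b' - a' * b ≠ 0 := by
      intro h0
      refine hk ?_
      have h7 : a * b₀ = b * a₀ := by
        refine mul_left_cancel₀ hg ?_
        calc (Int.gcd a' b' : ℤ) * (a * b₀) = a * (Int.gcd a' b' * b₀) := by ring
          _ = a * b' := by rw [← hb₀]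
          _ = a' * b := by linarith
          _ = (Int.gcd a' b' * a₀) * b := by rw [← ha₀]
          _ = Int.gcd a' b' * (b * a₀) := by ring
      obtain ⟨u, v, huv⟩ := hcop
      refine ⟨u * a + v * b, ?_, ?_⟩
      · linear_combination (-a) * huv + v * h7
      · linear_combination (-b) * huv - u * h7
    have := two_bad hη hc ha hb ha' hb' hdet hbad' hbad
    linarith
  · refine ⟨1, 0, isCoprime_one_left, fun a b ha hb hk => good _ fun hbad => ?_⟩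
    refine hex ⟨a, b, ha, hb, ?_, hbad⟩
    rintro ⟨rfl, rfl⟩
    exact hk ⟨0, by simp, by simp⟩

end Pool.Agent.T2H33.EQ
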