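import Mathlib
import Pool.Agent.T2H33.EQ2

/-!
# A criterion for linear dependence of `1`, `θ`, `e`
-/

set_option autoImplicit false

namespace Pool.Agent.T2H33.NL

open Filter
open Pool.Agent.T2H33.EQ (e_irr)

/-- proportional integer vectors -/
def Par (v w : Fin 3 → ℤ) : Prop := ∀ i j, v i * w j = w i * v j

/-- the linear form -/
noncomputable def L (θ : ℝ) (v : Fin 3 → ℤ) : ℝ := v 0 + v 1 * θ + v 2 * Real.exp 1

lemma Par.refl (v : Fin 3 → ℤ) : Par v v := fun i j => by ring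

lemma Par.trans {u v w : Fin 3 → ℤ} (hv : v ≠ 0) (h : Par u v) (h' : Par v w) : Par u w := by
  obtain ⟨k, hk⟩ := Function.ne_iff.1 hv
  intro i j
  refine mul_left_cancel₀ (pow_ne_zero 2 hk) ?_
  have h1 := h i k
  have h2 := h j k
  have h3 := h' k i
  have h4 := h' k j
  linear_combination (v k * w j) * h1 + (v i * u k) * h4 - (u j * v k) * h3 - (w k * v i) * h2

lemma Par.ev {v w : Fin 3 → ℤ} (h : Par v w) (θ : ℝ) (i : Fin 3) : (w i : ℝ) * L θ v = v i * L θ w := by
  have h0 : (v i : ℝ) * w 0 = w i * v 0 := by exact_mod_cast h i 0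
  have h1 : (v i : ℝ) * w 1 = w i * v 1 := by exact_mod_cast h i 1
  have h2 : (v i : ℝ) * w 2 = w i * v 2 := by exact_mod_cast h i 2
  rw [L, L]
  linear_combination (-1 : ℝ) * h0 - θ * h1 - Real.exp 1 * h2

/-- two non-proportional vectors do not both give small values -/
lemma two_small {c η θ X δ : ℝ} (hη : 0 < η) (hc0 : 0 < c) (hc : ∀ m P : ℤ, m ≠ 0 →
    c ≤ (|(m : ℝ)|) ^ (1 + η) * |(m : ℝ) * Real.exp 1 - P|) {v w : Fin 3 → ℤ} (hX : 1 ≤ X)
    (hv : ∀ i, |(v i : ℝ)| ≤ X) (hw : ∀ i, |(w i : ℝ)| ≤ X) (hvw : ¬ Par v w)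
    (h1 : |L θ v| ≤ δ) (h2 : |L θ w| ≤ δ) : min (1 / 2) (c / (2 * 2 ^ (1 + η))) ≤ X ^ (3 + 2 * η) * δ := by
  have hδ : 0 ≤ δ := (abs_nonneg _).trans h1
  have hX0 : 0 < X := by linarith
  -- a general bound for eliminations
  have elim : ∀ i : Fin 3, |(w i : ℝ) * L θ v - v i * L θ w| ≤ 2 * X * δ := by
    intro i
    refine (abs_sub _ _).trans ?_
    rw [abs_mul, abs_mul]
    have e1 : |(w i : ℝ)| * |L θ v| ≤ X * δ := mul_le_mul (hw i) h1 (abs_nonneg _) hX0.le
    have e2 : |(v i : ℝ)| * |L θ w| ≤ X * δ := mul_le_mul (hv i) h2 (abs_nonneg _) hX0.le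
    linarith
  have hpow : X ≤ X ^ (3 + 2 * η) := by
    calc X = X ^ (1 : ℝ) := (Real.rpow_one X).symm
      _ ≤ X ^ (3 + 2 * η) := Real.rpow_le_rpow_of_exponent_le hX (by linarith)
  -- an integer which is nonzero
  have int_case : ∀ m : ℤ, m ≠ 0 → |(m : ℝ)| ≤ 2 * X * δ → min (1 / 2) (c / (2 * 2 ^ (1 + η))) ≤ X ^ (3 + 2 * η) * δ := by
    intro m hm hle
    have h3 : (1 : ℝ) ≤ |(m : ℝ)| := by exact_mod_cast Int.one_le_abs hm
    refine (min_le_left _ _).trans ?_
    have h4 : X * δ ≤ X ^ (3 + 2 * η) * δ := by gcongr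
    linarith
  obtain ⟨D, hD⟩ : ∃ D : ℤ, D = w 1 * v 2 - v 1 * w 2 := ⟨_, rfl⟩
  obtain ⟨P, hP⟩ : ∃ P : ℤ, P = v 1 * w 0 - w 1 * v 0 := ⟨_, rfl⟩
  have hid : (w 1 : ℝ) * L θ v - v 1 * L θ w = D * Real.exp 1 - P := by
    rw [hD, hP, L, L]; push_cast; ring
  by_cases hD0 : D = 0
  · by_cases hP0 : P = 0
    · -- then the middle coordinates vanish
      have hv1 : v 1 = 0 ∧ w 1 = 0 := by
        by_contra hcon
        apply hvw
        rw [not_and_or] at hcon
        have q2 : w 1 * v 2 = v 1 * w 2 := by rw [hD0] at hD; linarith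
        have q0 : v 1 * w 0 = w 1 * v 0 := by rw [hP0] at hP; linarith
        have q3 : v 0 * w 2 = w 0 * v 2 := by
          rcases hcon with hc1 | hc1
          · refine mul_left_cancel₀ hc1 ?_
            linear_combination (-v 0) * q2 - v 2 * q0
          · refine mul_left_cancel₀ hc1 ?_
            linear_combination (-w 2) * q0 - w 0 * q2
        intro i j
        fin_cases i <;> fin_cases j <;> simp only [Fin.zero_eta, Fin.mk_one, Fin.reduceFinMk, Fin.isValue]
        · ring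
        · linarith
        · exact q3
        · linarith
        · ring
        · linarith
        · linarith
        · linarith
        · ring
      have hR : v 0 * w 2 - w 0 * v 2 ≠ 0 := by
        intro h0
        apply hvw
        intro i j
        fin_cases i <;> fin_cases j <;>
          simp only [Fin.zero_eta, Fin.mk_one, Fin.reduceFinMk, Fin.isValue, hv1.1, hv1.2] <;> linarith
      refine int_case _ hR ?_
      have e1 : ((v 0 * w 2 - w 0 * v 2 : ℤ) : ℝ) = w 2 * L θ v - v 2 * L θ w := by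
        rw [L, L, hv1.1, hv1.2]; push_cast; ring
      rw [e1]
      exact elim 2
    · refine int_case P hP0 ?_
      have e1 := elim 1
      rw [hid, hD0, Int.cast_zero, zero_mul, zero_sub, abs_neg] at e1
      exact e1
  · have h3 := hc D P hD0
    have e1 := elim 1
    rw [hid] at e1
    have hDa : |(D : ℝ)| ≤ 2 * X ^ 2 := by
      rw [hD]; push_cast
      refine (abs_sub _ _).trans ?_
      rw [abs_mul, abs_mul]
      have := mul_le_mul (hw 1) (hv 2) (abs_nonneg _) hX0.le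
      have := mul_le_mul (hv 1) (hw 2) (abs_nonneg _) hX0.le
      nlinarith
    refine (min_le_right _ _).trans ?_
    rw [div_le_iff₀ (by positivity)]
    calc c ≤ (|(D : ℝ)|) ^ (1 + η) * |(D : ℝ) * Real.exp 1 - P| := h3
      _ ≤ (2 * X ^ 2) ^ (1 + η) * (2 * X * δ) := by gcongr
      _ = X ^ (3 + 2 * η) * δ * (2 * 2 ^ (1 + η)) := by
        rw [Real.mul_rpow (by norm_num) (by positivity), ← Real.rpow_natCast X 2, ← Real.rpow_mul hX0.le]
        have e2 : X ^ (3 + 2 * η) = X ^ (((2 : ℕ) : ℝ) * (1 + η)) * X := by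
          conv_rhs => rw [← Real.rpow_one X, ← Real.rpow_mul hX0.le, one_mul, ← Real.rpow_add hX0]
          congr 1; push_cast; ring
        rw [e2]; ring

/-- **Linear criterion.** -/
theorem lin_criterion (A w θ : ℝ) (hA : 1 ≤ A) (hw : 3 * A < w) (X : ℕ → ℝ) (v : ℕ → Fin 3 → ℤ) (hX1 : ∀ n, 1 ≤ X n)
    (hlim : Tendsto X atTop atTop) (hmono : ∀ n, X n ≤ X (n + 1)) (hgrow : ∀ n, X (n + 1) ≤ X n ^ A)
    (hv0 : ∀ n, v n ≠ 0) (hv : ∀ n i, |(v n i : ℝ)| ≤ X n) (hsmall : ∀ n, |L θ (v n)| ≤ X n ^ (-w)) :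
    ∃ n₀, ∀ n, n₀ ≤ n → L θ (v n) = 0 := by
  have hA0 : 0 < A := by linarith
  obtain ⟨η, hη⟩ : ∃ η : ℝ, η = (w / A - 3) / 4 := ⟨_, rfl⟩
  have h3 : 3 < w / A := by rwa [lt_div_iff₀ hA0]
  have hη0 : 0 < η := by rw [hη]; linarith
  have hw0 : 0 < w := by nlinarith
  obtain ⟨c, hc0, hc⟩ := e_irr η hη0
  obtain ⟨c', hc'⟩ : ∃ c' : ℝ, c' = min (1 / 2) (c / (2 * 2 ^ (1 + η))) := ⟨_, rfl⟩
  have hc'0 : 0 < c' := by rw [hc']; positivity
  have t1 : Tendsto (fun n => X n ^ (-(2 * η))) atTop (nhds 0) := (tendsto_rpow_neg_atTop (by positivity)).comp hlim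
  obtain ⟨n₀, hn₀⟩ := eventually_atTop.1 (t1.eventually (gt_mem_nhds hc'0))
  have hpar : ∀ n, n₀ ≤ n → Par (v n) (v (n + 1)) := by
    intro n hn
    by_contra hnot
    have hXn : 0 < X n := by linarith [hX1 n]
    have hXn' : 0 < X (n + 1) := by linarith [hX1 (n + 1)]
    have e1 : X n ^ (-w) ≤ X (n + 1) ^ (-(w / A)) := by
      rw [Real.rpow_neg hXn.le, Real.rpow_neg hXn'.le]
      have : X (n + 1) ^ (w / A) ≤ X n ^ w := by
        calc X (n + 1) ^ (w / A) ≤ (X n ^ A) ^ (w / A) := by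
              gcongr
              exact hgrow n
          _ = X n ^ w := by rw [← Real.rpow_mul hXn.le]; congr 1; field_simp
      gcongr
    have e2 : X (n + 1) ^ (-w) ≤ X (n + 1) ^ (-(w / A)) := by
      refine Real.rpow_le_rpow_of_exponent_le (hX1 _) (neg_le_neg ?_)
      exact div_le_self hw0.le hA
    have e3 := two_small (θ := θ) (δ := X (n + 1) ^ (-(w / A))) hη0 hc0 hc (hX1 (n + 1)) (fun i => (hv n i).trans (hmono n))
      (hv (n + 1)) hnot ((hsmall n).trans e1) ((hsmall (n + 1)).trans e2)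
    rw [← hc', ← Real.rpow_add hXn'] at e3
    have e4 := hn₀ (n + 1) (by omega)
    have e5 : X (n + 1) ^ (3 + 2 * η + -(w / A)) = X (n + 1) ^ (-(2 * η)) := by
      congr 1; rw [hη]; ring
    rw [e5] at e3
    linarith
  have hall : ∀ m n, n₀ ≤ m → m ≤ n → Par (v m) (v n) := by
    intro m n hm hmn
    induction n, hmn using Nat.le_induction with
    | base => exact Par.refl _
    | succ n hn ih => exact ih.trans (hv0 n) (hpar n (by omega))
  refine ⟨n₀, fun m hm => ?_⟩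
  obtain ⟨i, hi⟩ := Function.ne_iff.1 (hv0 m)
  have t2 : Tendsto (fun n => |(v m i : ℝ)| * X n ^ (-w)) atTop (nhds 0) := by
    simpa using ((tendsto_rpow_neg_atTop hw0).comp hlim).const_mul (|(v m i : ℝ)|)
  have hle : |L θ (v m)| ≤ 0 := by
    refine ge_of_tendsto t2 ?_
    filter_upwards [eventually_ge_atTop m] with n hn
    have h4 := hall m n hm hn
    have h5 := h4.ev θ i
    have h6 : v n i ≠ 0 := by
      intro h0
      obtain ⟨j, hj⟩ := Function.ne_iff.1 (hv0 n)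
      have h7 := h4 i j
      rw [h0, zero_mul] at h7
      rcases mul_eq_zero.1 h7 with h8 | h8
      · exact hi h8
      · exact hj h8
    have h9 : (1 : ℝ) ≤ |(v n i : ℝ)| := by exact_mod_cast Int.one_le_abs h6
    calc |L θ (v m)| = 1 * |L θ (v m)| := (one_mul _).symm
      _ ≤ |(v n i : ℝ)| * |L θ (v m)| := by gcongr
      _ = |(v m i : ℝ)| * |L θ (v n)| := by rw [← abs_mul, h5, abs_mul]
      _ ≤ |(v m i : ℝ)| * X n ^ (-w) := by
        gcongr
        exact hsmall n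
  exact abs_eq_zero.1 (le_antisymm hle (abs_nonneg _))

end Pool.Agent.T2H33.NL
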