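import Mathlib
import Pool.Agent.R352.T.Count2

/-!
# Regularized incomplete gamma values, `π` and `e`
-/

set_option autoImplicit false

open Set MeasureTheory

namespace Pool.Agent.T2H33.EF

open Pool.Agent.R352.E (clF subset_clF clF_mono clF_le of_pow mem_clF rat_mem exp_rat_mem mem_clF' Mt card_le)
open Pool.Agent.R352.T (EA gu EA_one_mem AI_gam AI_generic count_fin fa_integrable fa ma_zero ma_eq Ma ma)

/-- the lower incomplete gamma function -/
noncomputable def gl (a x : ℝ) : ℝ := ∫ t in (0 : ℝ)..x, t ^ (a - 1) * Real.exp (-t)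

lemma fr_zero (t : ℝ) : Pool.Agent.R352.E.fr 0 t = Real.exp (-t) := by
  simp [Pool.Agent.R352.E.fr]

lemma gl_add_gu {a x : ℝ} (ha : 0 < a) (hx : 0 < x) : gl a x + gu a x = Real.Gamma a := by
  have h := ma_eq ha 0 hx
  rw [ma_zero ha, Ma] at h
  rw [h, gl, gu]
  simp only [fa, fr_zero]

lemma intOn {a : ℝ} (ha : 0 < a) : IntegrableOn (fun t : ℝ => t ^ (a - 1) * Real.exp (-t)) (Ioi 0) := by
  have h := Real.GammaIntegral_convergent ha
  simpa only [mul_comm] using h

lemma int_pos {a x : ℝ} (ha : 0 < a) (hx : 0 < x) : 0 < gl a x ∧ 0 < gu a x := by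
  have hI := intOn ha
  constructor
  · rw [gl]
    refine intervalIntegral.intervalIntegral_pos_of_pos_on ?_ (fun t ht => ?_) hx
    · rw [intervalIntegrable_iff_integrableOn_Ioc_of_le hx.le]
      exact hI.mono_set Ioc_subset_Ioi_self
    · exact mul_pos (Real.rpow_pos_of_pos ht.1 _) (Real.exp_pos _)
  · rw [gu]
    rw [setIntegral_pos_iff_support_of_nonneg_ae]
    · have : Function.support (fun t : ℝ => t ^ (a - 1) * Real.exp (-t)) ∩ Ioi x = Ioi x := by
        ext t
        simp only [mem_inter_iff, Function.mem_support, mem_Ioi, and_iff_right_iff_imp]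
        intro ht
        exact (mul_pos (Real.rpow_pos_of_pos (hx.trans ht) _) (Real.exp_pos _)).ne'
      rw [this]
      simp
    · refine (ae_restrict_iff' measurableSet_Ioi).2 (Filter.Eventually.of_forall fun t ht => ?_)
      exact (mul_pos (Real.rpow_pos_of_pos (hx.trans ht) _) (Real.exp_pos _)).le
    · exact hI.mono_set (Ioi_subset_Ioi hx.le)

/-- regularized -/
noncomputable def rg (a x : ℝ) : ℝ := gl a x / Real.Gamma a

lemma rg_lt_one {a x : ℝ} (ha : 0 < a) (hx : 0 < x) : 0 < rg a x ∧ rg a x < 1 := by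
  have h1 := gl_add_gu ha hx
  have h2 := int_pos ha hx
  have h3 := Real.Gamma_pos_of_pos ha
  constructor
  · exact div_pos h2.1 h3
  · rw [rg, div_lt_one h3]
    linarith

/-- the error function -/
noncomputable def erf (x : ℝ) : ℝ := 2 / √Real.pi * ∫ t in (0 : ℝ)..x, Real.exp (-t ^ 2)

lemma rpow_sq_half {t : ℝ} (ht : 0 < t) : (t ^ 2) ^ ((1 / 2 : ℝ) - 1) * (2 * t) = 2 := by
  have h1 : (t ^ 2) ^ ((1 / 2 : ℝ) - 1) = t⁻¹ := by
    rw [← Real.rpow_natCast, ← Real.rpow_mul ht.le, ← Real.rpow_neg_one]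
    norm_num
  rw [h1]
  field_simp

lemma gl_half {x : ℝ} (hx : 0 < x) : gl (1 / 2) x = 2 * ∫ t in (0 : ℝ)..√x, Real.exp (-t ^ 2) := by
  have hI := intOn (a := 1 / 2) (by norm_num)
  have hs : 0 < √x := Real.sqrt_pos.2 hx
  have h0 : Set.uIcc (0 : ℝ) (√x) = Icc 0 (√x) := uIcc_of_le hs.le
  have key : ∫ t in (0 : ℝ)..√x, ((fun u => u ^ ((1 / 2 : ℝ) - 1) * Real.exp (-u)) ∘ (fun t => t ^ 2)) t * (2 * t) =
      ∫ u in ((0 : ℝ) ^ 2)..(√x) ^ 2, u ^ ((1 / 2 : ℝ) - 1) * Real.exp (-u) := by
    refine intervalIntegral.integral_comp_mul_deriv''' (f := fun t : ℝ => t ^ 2) (f' := fun t => 2 * t)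
      (g := fun u => u ^ ((1 / 2 : ℝ) - 1) * Real.exp (-u)) ?_ ?_ ?_ ?_ ?_
    · exact (continuous_pow 2).continuousOn
    · intro t _
      simpa using (hasDerivAt_pow 2 t).hasDerivWithinAt
    · rintro u ⟨t, ht, rfl⟩
      rw [min_eq_left hs.le, max_eq_right hs.le] at ht
      have htp : (0 : ℝ) < t ^ 2 := by have := ht.1; positivity
      exact ((Real.continuousAt_rpow_const _ _ (Or.inl htp.ne')).mul
        (Real.continuous_exp.comp continuous_neg).continuousAt).continuousWithinAt
    · rw [h0]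
      have h1 : IntegrableOn (fun t : ℝ => t ^ ((1 / 2 : ℝ) - 1) * Real.exp (-t)) (Icc 0 x) := by
        rw [integrableOn_Icc_iff_integrableOn_Ioc]
        exact hI.mono_set Ioc_subset_Ioi_self
      refine h1.mono_set ?_
      rintro _ ⟨t, ht, rfl⟩
      refine ⟨by positivity, ?_⟩
      calc t ^ 2 ≤ (√x) ^ 2 := pow_le_pow_left₀ ht.1 ht.2 2
        _ = x := Real.sq_sqrt hx.le
    · rw [h0, integrableOn_Icc_iff_integrableOn_Ioc]
      have h1 : IntegrableOn (fun t : ℝ => 2 * Real.exp (-t ^ 2)) (Ioc 0 (√x)) := by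
        refine (Continuous.integrableOn_Icc (by fun_prop)).mono_set Ioc_subset_Icc_self
      refine h1.congr_fun (fun t ht => ?_) measurableSet_Ioc
      simp only [Function.comp]
      linear_combination (-Real.exp (-t ^ 2)) * rpow_sq_half ht.1
  rw [zero_pow (by norm_num), Real.sq_sqrt hx.le] at key
  rw [gl, ← key, ← intervalIntegral.integral_const_mul]
  rw [intervalIntegral.integral_of_le hs.le, intervalIntegral.integral_of_le hs.le]
  refine setIntegral_congr_fun measurableSet_Ioc fun t ht => ?_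
  simp only [Function.comp]
  linear_combination (Real.exp (-t ^ 2)) * rpow_sq_half ht.1

lemma erf_eq {x : ℝ} (hx : 0 < x) : erf (√x) = rg (1 / 2) x := by
  rw [erf, rg, gl_half hx, Real.Gamma_one_half_eq]
  ring

/-- the pairs `(a, x)` with `a ∈ A`, `1 - a ∈ A` or `a = 1 / 2`, and `x > 0` -/
abbrev PA (A : Finset ℚ) : Type := {p : ℚ × ℚ // (p.1 ∈ A ∨ 1 - p.1 ∈ A ∨ p.1 = 1 / 2) ∧ 0 < p.2}

lemma alg_mem {T : Set ℝ} {x : ℝ} (hx : IsAlgebraic ℚ x) : x ∈ clF T :=
  mem_clF.2 (hx.extendScalars (algebraMap ℚ (IntermediateField.adjoin ℚ T)).injective)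

lemma sqrt_mem {T : Set ℝ} {x : ℝ} (h0 : 0 ≤ x) (hx : x ∈ clF T) : √x ∈ clF T := by
  refine of_pow (n := 2) (by norm_num) ?_
  rwa [Real.sq_sqrt h0]

lemma sin_alg (a : ℚ) : IsAlgebraic ℚ (Real.sin (Real.pi * a)) := by
  have h := Real.isAlgebraic_sin_rat_mul_pi a
  rw [mul_comm] at h
  exact h.extendScalars (algebraMap ℤ ℚ).injective_int

lemma gamma_mem {A : Finset ℚ} (hA : ∀ a ∈ A, 0 < a ∧ a < 1 / 2) {T : Set ℝ} (hpi : Real.pi ∈ clF T)
    (hG : ∀ a ∈ A, Real.Gamma a ∈ clF T) {a : ℚ} (ha : a ∈ A ∨ 1 - a ∈ A ∨ a = 1 / 2) : Real.Gamma a ∈ clF T := by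
  rcases ha with ha | ha | rfl
  · exact hG a ha
  · have h1 := hG _ ha
    have h2 := hA _ ha
    have h3 := Real.Gamma_mul_Gamma_one_sub (a : ℝ)
    push_cast at h1
    have h4 : (0 : ℝ) < 1 - a := by exact_mod_cast h2.1
    have h5 : Real.Gamma (a : ℝ) = Real.pi / Real.sin (Real.pi * a) / Real.Gamma (1 - (a : ℝ)) := by
      rw [← h3]
      have := (Real.Gamma_pos_of_pos h4).ne'
      field_simp
    rw [h5]
    exact (clF T).div_mem ((clF T).div_mem hpi (alg_mem (sin_alg a))) h1
  · push_cast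
    rw [Real.Gamma_one_half_eq]
    exact sqrt_mem Real.pi_pos.le hpi

lemma range_PA {A : Finset ℚ} (hA : ∀ a ∈ A, 0 < a ∧ a < 1 / 2) {a : ℚ} (ha : a ∈ A ∨ 1 - a ∈ A ∨ a = 1 / 2) :
    0 < a ∧ a < 1 := by
  rcases ha with ha | ha | rfl
  · have := hA _ ha
    constructor <;> linarith [this.1, this.2]
  · have := hA _ ha
    constructor <;> linarith [this.1, this.2]
  · norm_num

lemma AI_PA {A : Finset ℚ} (hA : ∀ a ∈ A, 0 < a ∧ a < 1 / 2) : AlgebraicIndependent ℚ
    (fun o : Option (PA A) => o.elim (Real.exp 1) (fun p => EA p.1.1 1 p.1.2)) := by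
  let f : Option (PA A) → Option {p : ℚ × ℚ // 0 < p.1 ∧ p.1 < 1 ∧ 0 < p.2} := Option.map fun p =>
    ⟨p.1, (range_PA hA p.2.1).1, (range_PA hA p.2.1).2, p.2.2⟩
  have hf : Function.Injective f := by
    refine Option.map_injective ?_
    intro p p' h
    simp only [Subtype.mk.injEq] at h
    exact Subtype.ext h
  have h2 := AI_gam.comp f hf
  convert h2 using 1
  ext o
  cases o <;> simp [f]

lemma EA_mem_of {A : Finset ℚ} (hA : ∀ a ∈ A, 0 < a ∧ a < 1 / 2) (p : PA A) {T : Set ℝ}
    (he : Real.exp 1 ∈ clF T) (hpi : Real.pi ∈ clF T) (hG : ∀ a ∈ A, Real.Gamma a ∈ clF T)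
    (hR : rg p.1.1 p.1.2 ∈ clF T ∨ gu p.1.1 p.1.2 ∈ clF T) : EA p.1.1 1 p.1.2 ∈ clF T := by
  have ha := range_PA hA p.2.1
  have ha' : (0 : ℝ) < (p.1.1 : ℚ) := by exact_mod_cast ha.1
  have hx' : (0 : ℝ) < (p.1.2 : ℚ) := by exact_mod_cast p.2.2
  have hg := gamma_mem hA hpi hG p.2.1
  refine EA_one_mem ha.1 p.2.2 he hg ?_
  rcases hR with hR | hR
  · have h1 : gu (p.1.1 : ℚ) (p.1.2 : ℚ) = Real.Gamma (p.1.1 : ℚ) - rg (p.1.1 : ℚ) (p.1.2 : ℚ) * Real.Gamma (p.1.1 : ℚ) := by
      rw [rg, div_mul_cancel₀ _ (Real.Gamma_pos_of_pos ha').ne', ← gl_add_gu ha' hx']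
      ring
    rw [h1]
    exact (clF T).sub_mem hg ((clF T).mul_mem hR hg)
  · exact hR

theorem count (A : Finset ℚ) (hA : ∀ a ∈ A, 0 < a ∧ a < 1 / 2) (R : PA A → ℝ)
    (hR : ∀ p, R p = rg p.1.1 p.1.2 ∨ R p = gu p.1.1 p.1.2) :
    {i : Option A ⊕ PA A | Sum.elim (fun o : Option A => o.elim Real.pi (fun a => Real.Gamma (a : ℚ))) R i ∈
      clF {Real.exp 1}}.encard ≤ ((A.card + 1 : ℕ) : ℕ∞) := by
  have h := count_fin (AI_PA hA) (R := R) (fun o : Option A => o.elim Real.pi (fun a => Real.Gamma (a : ℚ)))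
    (fun p T hT hRT => by
      refine EA_mem_of hA p (hT (Or.inl rfl)) (hT (Or.inr ⟨none, rfl⟩)) (fun a ha => hT (Or.inr ⟨some ⟨a, ha⟩, rfl⟩)) ?_
      rcases hR p with h | h
      · rw [h] at hRT; exact Or.inl hRT
      · rw [h] at hRT; exact Or.inr hRT)
  rw [Fintype.card_option, Fintype.card_coe] at h
  exact h

/-- the names of the numbers -/
inductive Name where
  /-- `π + e` -/
  | sum
  /-- `π - e` -/
  | difference
  /-- `π e` -/
  | product
  /-- `π / e` -/
  | quotient
  /-- `P(a, x)` -/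
  | lower (a x : ℚ)
  /-- `Γ(a, x)` -/
  | upper (a x : ℚ)

/-- the number with a given name is algebraic (over `ℚ`, resp. over `ℚ(e)`) -/
def Name.Alg : Name → Prop
  | .sum => IsAlgebraic ℚ (Real.pi + Real.exp 1)
  | .difference => IsAlgebraic ℚ (Real.pi - Real.exp 1)
  | .product => IsAlgebraic ℚ (Real.pi * Real.exp 1)
  | .quotient => IsAlgebraic ℚ (Real.pi / Real.exp 1)
  | .lower a x => rg a x ∈ clF {Real.exp 1}
  | .upper a x => gu a x ∈ clF {Real.exp 1}

/-- the names for the set `A` -/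
def Name.In (A : Finset ℚ) : Name → Prop
  | .lower a x => (a ∈ A ∨ 1 - a ∈ A ∨ a = 1 / 2) ∧ 0 < x
  | .upper a x => (a ∈ A ∨ 1 - a ∈ A ∨ a = 1 / 2) ∧ 0 < x
  | _ => True

lemma e_trans : Transcendental ℚ (Real.exp 1) := by
  have h := (AI_PA (A := ∅) (by simp)).transcendental none
  exact h

lemma EA_not_mem {a x : ℚ} (ha0 : 0 < a) (ha1 : a < 1) (hx : 0 < x) : EA a 1 x ∉ clF {Real.exp 1} := by
  intro hmem
  have h := AI_gam
  have h2 := h.comp (fun o : Option Unit => Option.map
    (fun _ => (⟨(a, x), ha0, ha1, hx⟩ : {p : ℚ × ℚ // 0 < p.1 ∧ p.1 < 1 ∧ 0 < p.2})) o)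
    (Option.map_injective fun _ _ _ => rfl)
  have h3 := card_le h2 (T := {Real.exp 1}) (fun o => by
    cases o with
    | none => exact subset_clF _ rfl
    | some u => exact hmem)
  have h4 := h3.trans (Matroid.eRk_le_encard _ _)
  rw [encard_singleton, Fintype.card_option, Fintype.card_unit] at h4
  exact absurd h4 (by norm_num)

lemma special_unique {n m : Name} (hn : n.Alg) (hm : m.Alg) (hn' : ∀ a x, n ≠ .lower a x ∧ n ≠ .upper a x)
    (hm' : ∀ a x, m ≠ .lower a x ∧ m ≠ .upper a x) : n = m := by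
  have he := e_trans
  have hpi := Real.pi_pos
  have hepos := Real.exp_pos 1
  have h2 : IsAlgebraic ℚ (2 : ℝ) := by simpa using isAlgebraic_algebraMap (R := ℚ) (A := ℝ) (2 : ℚ)
  have h4 : IsAlgebraic ℚ (4 : ℝ) := by simpa using isAlgebraic_algebraMap (R := ℚ) (A := ℝ) (4 : ℚ)
  -- sum and difference
  have k1 : IsAlgebraic ℚ (Real.pi + Real.exp 1) → IsAlgebraic ℚ (Real.pi - Real.exp 1) → False := by
    intro h h'
    refine he ?_
    have e1 : Real.exp 1 = ((Real.pi + Real.exp 1) - (Real.pi - Real.exp 1)) * 2⁻¹ := by ring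
    rw [e1]
    exact (h.sub h').mul h2.inv
  have k2 : IsAlgebraic ℚ (Real.pi + Real.exp 1) → IsAlgebraic ℚ (Real.pi * Real.exp 1) → False := by
    intro h h'
    refine k1 h (IsAlgebraic.of_pow (n := 2) (by norm_num) ?_)
    have e1 : (Real.pi - Real.exp 1) ^ 2 = (Real.pi + Real.exp 1) ^ 2 - 4 * (Real.pi * Real.exp 1) := by ring
    rw [e1]
    exact (h.pow 2).sub (h4.mul h')
  have k3 : IsAlgebraic ℚ (Real.pi + Real.exp 1) → IsAlgebraic ℚ (Real.pi / Real.exp 1) → False := by
    intro h h'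
    refine he ?_
    have e1 : Real.exp 1 = (Real.pi + Real.exp 1) * (Real.pi / Real.exp 1 + 1)⁻¹ := by
      have : Real.pi + Real.exp 1 ≠ 0 := by positivity
      field_simp
    rw [e1]
    exact h.mul (h'.add isAlgebraic_one).inv
  have k4 : IsAlgebraic ℚ (Real.pi - Real.exp 1) → IsAlgebraic ℚ (Real.pi * Real.exp 1) → False := by
    intro h h'
    refine k1 (IsAlgebraic.of_pow (n := 2) (by norm_num) ?_) h
    have e1 : (Real.pi + Real.exp 1) ^ 2 = (Real.pi - Real.exp 1) ^ 2 + 4 * (Real.pi * Real.exp 1) := by ring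
    rw [e1]
    exact (h.pow 2).add (h4.mul h')
  have k5 : IsAlgebraic ℚ (Real.pi - Real.exp 1) → IsAlgebraic ℚ (Real.pi / Real.exp 1) → False := by
    intro h h'
    refine he ?_
    have hne : Real.pi - Real.exp 1 ≠ 0 := by
      have h1 := Real.pi_gt_three
      have h2 := Real.exp_one_lt_d9
      intro h
      linarith
    have e1 : Real.exp 1 = (Real.pi - Real.exp 1) * (Real.pi / Real.exp 1 - 1)⁻¹ := by
      have : Real.pi / Real.exp 1 - 1 = (Real.pi - Real.exp 1) / Real.exp 1 := by field_simp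
      rw [this]
      field_simp
    rw [e1]
    exact h.mul (h'.sub isAlgebraic_one).inv
  have k6 : IsAlgebraic ℚ (Real.pi * Real.exp 1) → IsAlgebraic ℚ (Real.pi / Real.exp 1) → False := by
    intro h h'
    refine he (IsAlgebraic.of_pow (n := 2) (by norm_num) ?_)
    have e1 : Real.exp 1 ^ 2 = (Real.pi * Real.exp 1) * (Real.pi / Real.exp 1)⁻¹ := by
      field_simp
    rw [e1]
    exact h.mul h'.inv
  cases n with
  | lower a x => exact absurd rfl (hn' a x).1
  | upper a x => exact absurd rfl (hn' a x).2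
  | sum =>
    cases m with
    | lower a x => exact absurd rfl (hm' a x).1
    | upper a x => exact absurd rfl (hm' a x).2
    | sum => rfl
    | difference => exact (k1 hn hm).elim
    | product => exact (k2 hn hm).elim
    | quotient => exact (k3 hn hm).elim
  | difference =>
    cases m with
    | lower a x => exact absurd rfl (hm' a x).1
    | upper a x => exact absurd rfl (hm' a x).2
    | sum => exact (k1 hm hn).elim
    | difference => rfl
    | product => exact (k4 hn hm).elim
    | quotient => exact (k5 hn hm).elim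
  | product =>
    cases m with
    | lower a x => exact absurd rfl (hm' a x).1
    | upper a x => exact absurd rfl (hm' a x).2
    | sum => exact (k2 hm hn).elim
    | difference => exact (k4 hm hn).elim
    | product => rfl
    | quotient => exact (k6 hn hm).elim
  | quotient =>
    cases m with
    | lower a x => exact absurd rfl (hm' a x).1
    | upper a x => exact absurd rfl (hm' a x).2
    | sum => exact (k3 hm hn).elim
    | difference => exact (k5 hm hn).elim
    | product => exact (k6 hm hn).elim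
    | quotient => rfl

lemma pi_mem_of_special {n : Name} (hn : n.Alg) (hn' : ∀ a x, n ≠ .lower a x ∧ n ≠ .upper a x) :
    Real.pi ∈ clF {Real.exp 1} := by
  have he : Real.exp 1 ∈ clF {Real.exp 1} := subset_clF _ rfl
  have hepos := Real.exp_pos 1
  cases n with
  | lower a x => exact absurd rfl (hn' a x).1
  | upper a x => exact absurd rfl (hn' a x).2
  | sum =>
    have e1 : Real.pi = (Real.pi + Real.exp 1) - Real.exp 1 := by ring
    rw [e1]
    exact (clF _).sub_mem (alg_mem hn) he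
  | difference =>
    have e1 : Real.pi = (Real.pi - Real.exp 1) + Real.exp 1 := by ring
    rw [e1]
    exact (clF _).add_mem (alg_mem hn) he
  | product =>
    have e1 : Real.pi = (Real.pi * Real.exp 1) / Real.exp 1 := by field_simp
    rw [e1]
    exact (clF _).div_mem (alg_mem hn) he
  | quotient =>
    have e1 : Real.pi = (Real.pi / Real.exp 1) * Real.exp 1 := by field_simp
    rw [e1]
    exact (clF _).mul_mem (alg_mem hn) he

lemma not_both {A : Finset ℚ} (hA : ∀ a ∈ A, 0 < a ∧ a < 1 / 2) {a x : ℚ}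
    (h : (a ∈ A ∨ 1 - a ∈ A ∨ a = 1 / 2) ∧ 0 < x) (h1 : rg a x ∈ clF {Real.exp 1}) (h2 : gu a x ∈ clF {Real.exp 1}) :
    False := by
  have ha := range_PA hA h.1
  have ha' : (0 : ℝ) < (a : ℚ) := by exact_mod_cast ha.1
  have hx' : (0 : ℝ) < (x : ℚ) := by exact_mod_cast h.2
  have h3 := rg_lt_one ha' hx'
  have hG : Real.Gamma a ∈ clF {Real.exp 1} := by
    have e1 : Real.Gamma a = gu a x / (1 - rg a x) := by
      have h4 := gl_add_gu ha' hx'
      have h5 : gl a x = rg a x * Real.Gamma a := by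
        rw [rg, div_mul_cancel₀ _ (Real.Gamma_pos_of_pos ha').ne']
      have h6 : 1 - rg (a : ℝ) x ≠ 0 := by linarith [h3.2]
      field_simp
      linarith
    rw [e1]
    exact (clF _).div_mem h2 ((clF _).sub_mem (clF _).one_mem h1)
  exact EA_not_mem ha.1 ha.2 h.2 (EA_one_mem ha.1 h.2 (subset_clF _ rfl) hG h2)

/-- the place of a name -/
def plc (A : Finset ℚ) : Name → Option A ⊕ (ℚ × ℚ)
  | .lower a x => Sum.inr (a, x)
  | .upper a x => Sum.inr (a, x)
  | _ => Sum.inl none

theorem count_names (A : Finset ℚ) (hA : ∀ a ∈ A, 0 < a ∧ a < 1 / 2) :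
    {n : Name | n.In A ∧ n.Alg}.encard ≤ ((A.card + 1 : ℕ) : ℕ∞) := by
  classical
  let R : PA A → ℝ := fun p => if rg p.1.1 p.1.2 ∈ clF {Real.exp 1} then rg p.1.1 p.1.2 else gu p.1.1 p.1.2
  have hR : ∀ p, R p = rg p.1.1 p.1.2 ∨ R p = gu p.1.1 p.1.2 := by
    intro p
    by_cases h : rg p.1.1 p.1.2 ∈ clF {Real.exp 1}
    · left; simp only [R, if_pos h]
    · right; simp only [R, if_neg h]
  have h := count A hA R hR
  let g : Option A ⊕ PA A → Option A ⊕ (ℚ × ℚ) := Sum.map id Subtype.val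
  have hg : Function.Injective g := Function.Injective.sumMap Function.injective_id Subtype.val_injective
  have hinj : InjOn (plc A) {n : Name | n.In A ∧ n.Alg} := by
    rintro n ⟨hn1, hn2⟩ m ⟨hm1, hm2⟩ hnm
    cases n with
    | lower a x =>
      cases m with
      | lower a' x' =>
        simp only [plc, Sum.inr.injEq, Prod.mk.injEq] at hnm
        rw [hnm.1, hnm.2]
      | upper a' x' =>
        simp only [plc, Sum.inr.injEq, Prod.mk.injEq] at hnm
        obtain ⟨rfl, rfl⟩ := hnm
        exact (not_both hA hn1 hn2 hm2).elim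
      | sum => simp [plc] at hnm
      | difference => simp [plc] at hnm
      | product => simp [plc] at hnm
      | quotient => simp [plc] at hnm
    | upper a x =>
      cases m with
      | upper a' x' =>
        simp only [plc, Sum.inr.injEq, Prod.mk.injEq] at hnm
        rw [hnm.1, hnm.2]
      | lower a' x' =>
        simp only [plc, Sum.inr.injEq, Prod.mk.injEq] at hnm
        obtain ⟨rfl, rfl⟩ := hnm
        exact (not_both hA hn1 hm2 hn2).elim
      | sum => simp [plc] at hnm
      | difference => simp [plc] at hnm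
      | product => simp [plc] at hnm
      | quotient => simp [plc] at hnm
    | sum =>
      refine special_unique hn2 hm2 (by simp) ?_
      rintro a x
      constructor <;> rintro rfl <;> simp [plc] at hnm
    | difference =>
      refine special_unique hn2 hm2 (by simp) ?_
      rintro a x
      constructor <;> rintro rfl <;> simp [plc] at hnm
    | product =>
      refine special_unique hn2 hm2 (by simp) ?_
      rintro a x
      constructor <;> rintro rfl <;> simp [plc] at hnm
    | quotient =>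
      refine special_unique hn2 hm2 (by simp) ?_
      rintro a x
      constructor <;> rintro rfl <;> simp [plc] at hnm
  have hsub : plc A '' {n : Name | n.In A ∧ n.Alg} ⊆
      g '' {i | Sum.elim (fun o : Option A => o.elim Real.pi (fun a => Real.Gamma (a : ℚ))) R i ∈ clF {Real.exp 1}} := by
    rintro _ ⟨n, ⟨hn1, hn2⟩, rfl⟩
    cases n with
    | lower a x =>
      refine ⟨Sum.inr ⟨(a, x), hn1⟩, ?_, rfl⟩
      have h1 : rg (a : ℝ) x ∈ clF {Real.exp 1} := hn2
      simp only [mem_ofPred_eq, Sum.elim_inr, R, if_pos h1]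
      exact h1
    | upper a x =>
      refine ⟨Sum.inr ⟨(a, x), hn1⟩, ?_, rfl⟩
      have h1 : gu (a : ℝ) x ∈ clF {Real.exp 1} := hn2
      simp only [mem_ofPred_eq, Sum.elim_inr, R]
      split_ifs with h2
      · exact h2
      · exact h1
    | sum => exact ⟨Sum.inl none, pi_mem_of_special hn2 (by simp), rfl⟩
    | difference => exact ⟨Sum.inl none, pi_mem_of_special hn2 (by simp), rfl⟩
    | product => exact ⟨Sum.inl none, pi_mem_of_special hn2 (by simp), rfl⟩
    | quotient => exact ⟨Sum.inl none, pi_mem_of_special hn2 (by simp), rfl⟩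
  calc {n : Name | n.In A ∧ n.Alg}.encard = (plc A '' {n : Name | n.In A ∧ n.Alg}).encard := (hinj.encard_image).symm
    _ ≤ _ := encard_le_encard hsub
    _ = _ := hg.encard_image _
    _ ≤ _ := h

/-- `π` is algebraic over `ℚ(e)` if `π` and `e` are algebraically dependent -/
lemma pi_mem_of_dep (h : ¬ AlgebraicIndependent ℚ ![Real.pi, Real.exp 1]) : Real.pi ∈ clF {Real.exp 1} := by
  by_contra hpi
  refine h ?_
  have h1 : AlgebraicIndependent ℚ (fun _ : Unit => Real.exp 1) := algebraicIndependent_unique_type_iff.2 e_trans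
  have h2 : AlgebraicIndependent ℚ (fun o : Option Unit => o.elim Real.pi (fun _ => Real.exp 1)) := by
    rw [h1.option_iff_transcendental]
    intro halg
    refine hpi (mem_clF'.2 (Pool.Agent.R352.E.mem_cl_iff.2 ?_))
    have e1 : range (fun _ : Unit => Real.exp 1) = {Real.exp 1} := by
      ext z; simp
    rwa [e1] at halg
  have h3 := h2.comp (![none, some ()] : Fin 2 → Option Unit) (by
    intro i j hij
    fin_cases i <;> fin_cases j <;> simp_all)
  convert h3 using 1
  ext i
  fin_cases i <;> rfl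

/-- algebraic independence of `e` and the values of the error function -/
theorem AI_erf (hpi : Real.pi ∈ clF {Real.exp 1}) : AlgebraicIndependent ℚ
    (fun o : Option {x : ℚ // 0 < x} => o.elim (Real.exp 1) (fun x => erf (√((x : ℚ) : ℝ)))) := by
  have h := (AI_PA (A := ∅) (by simp)).comp
    (fun o : Option {x : ℚ // 0 < x} => Option.map
      (fun x => (⟨(1 / 2, x.1), Or.inr (Or.inr rfl), x.2⟩ : PA ∅)) o)
    (Option.map_injective fun x y hxy => by
      simp only [Subtype.mk.injEq, Prod.mk.injEq, true_and] at hxy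
      exact Subtype.ext hxy)
  have h2 : AlgebraicIndependent ℚ (fun o : Option {x : ℚ // 0 < x} => o.elim (Real.exp 1)
      (fun x => EA ((1 / 2 : ℚ) : ℝ) 1 ((x : ℚ) : ℝ))) := by
    convert h using 1
    ext o
    cases o <;> rfl
  refine AI_generic h2 fun x T he hR => ?_
  have hx : (0 : ℝ) < (x : ℚ) := by exact_mod_cast x.2
  have hpiT : Real.pi ∈ clF T := clF_le (by simpa using he) hpi
  refine EA_mem_of (A := ∅) (by simp) (⟨(1 / 2, x.1), Or.inr (Or.inr rfl), x.2⟩ : PA ∅) he hpiT (by simp) (Or.inl ?_)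
  rw [erf_eq hx] at hR
  convert hR using 2
  push_cast
  rfl

end Pool.Agent.T2H33.EF
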