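import Mathlib
import Pool.Agent.T2H33.NR
import Pool.Agent.T2H33.EQ

/-!
# Near relations and equidistribution
-/

set_option autoImplicit false

open Polynomial

namespace Pool.Agent.T2H33.NR

open Pool.Agent.T2H33.EQ (Dev Bad dev_of_not_bad)

lemma ev_le {k : ℕ} {H T θ : ℝ} (hH : 0 ≤ H) (hT : 1 ≤ T) (hθ : |θ| ≤ T) {F : ℤ[X][X]} (hF : Bd k H F) :
    |ev θ F| ≤ (((k : ℝ) + 1) ^ 2 * 3 ^ k * T ^ k) * H := by
  rw [ev, eval_eq_sum_range' (lt_of_le_of_lt (natDegree_map_le.trans hF.deg) (Nat.lt_succ_self k))]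
  refine (Finset.abs_sum_le_sum_abs _ _).trans ?_
  have h1 : ∀ j ∈ Finset.range (k + 1), |(F.map ee).coeff j * θ ^ j| ≤ ((k + 1) * H * 3 ^ k) * T ^ k := by
    intro j hj
    rw [abs_mul, abs_pow, coeff_map]
    have h2 : |θ| ^ j ≤ T ^ k :=
      (pow_le_pow_left₀ (abs_nonneg _) hθ j).trans (pow_le_pow_right₀ hT (Nat.lt_succ_iff.1 (Finset.mem_range.1 hj)))
    exact mul_le_mul (ee_coeff hH hF j) h2 (by positivity) (by positivity)
  refine (Finset.sum_le_sum h1).trans ?_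
  rw [Finset.sum_const, Finset.card_range, nsmul_eq_mul]
  push_cast
  exact le_of_eq (by ring)

lemma ev_log {c c' : ℝ} (h : c < c') : ∀ᶠ N : ℕ in Filter.atTop,
    3 * (N : ℝ) ^ (1 - c') * (Nat.log 2 N + 1) ≤ (N : ℝ) ^ (1 - c) := by
  obtain ⟨σ, hσ⟩ : ∃ σ : ℝ, σ = c' - c := ⟨_, rfl⟩
  have hσ0 : 0 < σ := by rw [hσ]; linarith
  have hlog : (fun x : ℝ => 3 * (Real.log x / Real.log 2 + 1)) =o[Filter.atTop] fun x : ℝ => x ^ σ := by
    have l1 := isLittleO_log_rpow_atTop hσ0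
    have l2 : (fun _ : ℝ => (1 : ℝ)) =o[Filter.atTop] fun x : ℝ => x ^ σ := by
      rw [Asymptotics.isLittleO_const_left]
      right
      exact tendsto_norm_atTop_atTop.comp (tendsto_rpow_atTop hσ0)
    have l3 := (l1.const_mul_left (1 / Real.log 2)).add l2
    have l4 := l3.const_mul_left 3
    refine l4.congr_left fun x => ?_
    ring
  have h5 := (hlog.comp_tendsto tendsto_natCast_atTop_atTop).bound (show (0 : ℝ) < 1 by norm_num)
  filter_upwards [h5, Filter.eventually_ge_atTop 1] with N hN hN1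
  have hN0 : (0 : ℝ) < N := by exact_mod_cast hN1
  simp only [Function.comp, one_mul] at hN
  have h6 : (Nat.log 2 N : ℝ) ≤ Real.log N / Real.log 2 := by
    have := Real.natLog_le_logb N 2
    rwa [Real.logb, Nat.cast_ofNat] at this
  have h7 := (le_abs_self _).trans hN
  rw [Real.norm_of_nonneg (by positivity)] at h7
  have e3 : (N : ℝ) ^ (1 - c) = (N : ℝ) ^ (1 - c') * (N : ℝ) ^ σ := by
    rw [← Real.rpow_add hN0]
    congr 1
    rw [hσ]; ring
  rw [e3]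
  have h8 : (0 : ℝ) < (N : ℝ) ^ (1 - c') := by positivity
  nlinarith

lemma ev_const {s : ℝ} (hs : 0 < s) (A : ℝ) : ∀ᶠ N : ℕ in Filter.atTop, A ≤ (N : ℝ) ^ s :=
  ((tendsto_rpow_atTop hs).comp tendsto_natCast_atTop_atTop).eventually (Filter.eventually_ge_atTop A)

/-- **Equidistribution modulo one relation.** -/
theorem equi (k : ℕ) (hk : 1 ≤ k) (c T : ℝ) (hc : 0 < c) (hck : c * (16 * (k : ℝ) ^ 3 + 8 * k + 2) < 1) (hT : 1 ≤ T) :
    ∃ N₀ : ℕ, ∀ (θ : ℝ) (N : ℕ), |θ| ≤ T → N₀ ≤ N → ∃ P : ℤ[X][X], Irreducible P ∧ 0 < P.natDegree ∧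
      (∀ F, Bd k ((N : ℝ) ^ (4 * c)) F → |ev θ F| ≤ 1 / N → P ∣ F) ∧
      ∀ F G, Bd k ((N : ℝ) ^ c) F → Bd k ((N : ℝ) ^ c) G → (N : ℝ) ^ (-c) ≤ |ev θ G| →
        Dev (ev θ F / ev θ G) N ((N : ℝ) ^ (1 - c)) ∨
        ∃ p q : ℤ, 1 ≤ q ∧ (q : ℝ) ≤ (N : ℝ) ^ (1 / 2 : ℝ) ∧ |q * (ev θ F / ev θ G) - p| ≤ (N : ℝ) ^ (-(1 / 2) : ℝ) ∧
          P ∣ C (C q) * F + C (C (-p)) * G := by
  have hk1 : (1 : ℝ) ≤ k := by exact_mod_cast hk
  obtain ⟨M, hM⟩ : ∃ M : ℝ, M = 16 * (k : ℝ) ^ 3 + 8 * k + 2 := ⟨_, rfl⟩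
  have hk3 : (1 : ℝ) ≤ (k : ℝ) ^ 3 := one_le_pow₀ hk1
  have hM26 : 26 ≤ M := by rw [hM]; linarith
  rw [← hM] at hck
  have hcM : c < 1 / M := by rwa [lt_div_iff₀ (by linarith)]
  obtain ⟨c'', hcc'', hc''⟩ := exists_between hcM
  obtain ⟨c', hcc', hc'⟩ := exists_between hcc''
  have hc''M : c'' * M < 1 := by rwa [lt_div_iff₀ (by linarith)] at hc''
  have hc''0 : 0 < c'' := by linarith
  have hc''1 : c'' < 1 / 26 := by
    rw [lt_div_iff₀ (by norm_num)]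
    nlinarith
  obtain ⟨κ, hκ⟩ : ∃ κ : ℝ, κ = (1 / c'' - 2) / 4 := ⟨_, rfl⟩
  have hκ1 : 4 * (k : ℝ) ^ 3 + 2 * k < κ := by
    have h1 : M < 1 / c'' := by rw [lt_div_iff₀ hc''0]; linarith
    rw [hκ]
    rw [hM] at h1
    linarith
  have hκ2 : 4 * c'' * κ = 1 - 2 * c'' := by
    rw [hκ]; field_simp
  obtain ⟨H₀, hH₀1, hH₀⟩ := unique_relation k hk κ T hκ1 hT
  obtain ⟨C₀, hC₀⟩ : ∃ C₀ : ℝ, C₀ = ((k : ℝ) + 1) ^ 2 * 3 ^ k * T ^ k := ⟨_, rfl⟩
  have hC₀0 : 0 ≤ C₀ := by rw [hC₀]; positivity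
  obtain ⟨N₀, hN₀⟩ := Filter.eventually_atTop.1 (((ev_log hcc').and (ev_const (show 0 < 4 * (c'' - c') by linarith) (C₀ + 2))).and
    ((ev_const (show 0 < 4 * c'' by linarith) H₀).and (ev_const (show 0 < 2 * (c'' - c') by linarith) C₀)))
  refine ⟨max N₀ 1, fun θ N hθ hN => ?_⟩
  obtain ⟨⟨hlog, h1⟩, h2, h3⟩ := hN₀ N ((le_max_left _ _).trans hN)
  have hN1' : 1 ≤ N := (le_max_right _ _).trans hN
  have hN1 : (1 : ℝ) ≤ N := by exact_mod_cast hN1'
  have hN0 : (0 : ℝ) < N := by linarith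
  obtain ⟨P, hP1, hP2, hP3⟩ := hH₀ ((N : ℝ) ^ (4 * c'')) θ h2 hθ
  refine ⟨P, hP1, hP2, fun F hF hF' => ?_, fun F G hF hG hGl => ?_⟩
  · refine hP3 F (hF.mono (Real.rpow_le_rpow_of_exponent_le hN1 (by linarith))) (hF'.trans ?_)
    rw [← Real.rpow_mul hN0.le, one_div, ← Real.rpow_neg_one]
    exact Real.rpow_le_rpow_of_exponent_le hN1 (by linarith)
  rw [or_iff_not_imp_left]
  intro hnot
  have hK : 1 ≤ (N : ℝ) ^ (1 - c') := Real.one_le_rpow hN1 (by linarith)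
  have eQ : (N : ℝ) / (N : ℝ) ^ (1 - c') = (N : ℝ) ^ c' := by
    rw [div_eq_iff (by positivity), ← Real.rpow_add hN0]
    simp
  have eτ : 1 / (N : ℝ) ^ (1 - c') = (N : ℝ) ^ (c' - 1) := by
    rw [one_div, ← Real.rpow_neg hN0.le]
    congr 1
    ring
  have hbad : Bad (ev θ F / ev θ G) ((N : ℝ) ^ c') ((N : ℝ) ^ (c' - 1)) := by
    by_contra hb
    refine hnot ?_
    have h4 := dev_of_not_bad (α := ev θ F / ev θ G) (N := N) hK (by rw [eQ, eτ]; exact hb) N hN1' le_rfl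
    exact h4.mono hlog
  obtain ⟨r, hr1, hr2⟩ := hbad
  obtain ⟨x, hx⟩ : ∃ x : ℝ, x = ev θ F / ev θ G := ⟨_, rfl⟩
  rw [← hx] at hr2 ⊢
  have hq1 : (1 : ℝ) ≤ r.den := by exact_mod_cast r.den_pos
  have hqx : |r.den * x - r.num| < (N : ℝ) ^ (c' - 1) := by
    refine lt_of_le_of_lt ?_ hr2
    nlinarith [abs_nonneg (r.den * x - r.num)]
  have hG0 : 0 < |ev θ G| := lt_of_lt_of_le (by positivity) hGl
  have hFle := ev_le (by positivity) hT hθ hF
  have hGle := ev_le (by positivity) hT hθ hG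
  rw [← hC₀] at hFle hGle
  have hxle : |x| ≤ C₀ * (N : ℝ) ^ (2 * c) := by
    rw [hx, abs_div, div_le_iff₀ hG0]
    have e : C₀ * (N : ℝ) ^ c = C₀ * (N : ℝ) ^ (2 * c) * (N : ℝ) ^ (-c) := by
      rw [mul_assoc, ← Real.rpow_add hN0]; congr 2; ring
    rw [e] at hFle
    refine hFle.trans ?_
    gcongr
  have hnum : |(r.num : ℝ)| ≤ (C₀ + 1) * (N : ℝ) ^ (c' + 2 * c) := by
    have e : (r.num : ℝ) = r.den * x - (r.den * x - r.num) := by ring
    rw [e]
    refine (abs_sub _ _).trans ?_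
    rw [abs_mul, abs_of_nonneg (by linarith : (0 : ℝ) ≤ r.den)]
    have h5 : (r.den : ℝ) * |x| ≤ (N : ℝ) ^ c' * (C₀ * (N : ℝ) ^ (2 * c)) := by gcongr
    have h6 : (N : ℝ) ^ (c' - 1) ≤ (N : ℝ) ^ (c' + 2 * c) := Real.rpow_le_rpow_of_exponent_le hN1 (by linarith)
    have h7 : (N : ℝ) ^ c' * (C₀ * (N : ℝ) ^ (2 * c)) = C₀ * (N : ℝ) ^ (c' + 2 * c) := by
      rw [Real.rpow_add hN0]; ring
    linarith
  have hheight : |((r.den : ℤ) : ℝ)| * (N : ℝ) ^ c + |((-r.num : ℤ) : ℝ)| * (N : ℝ) ^ c ≤ (N : ℝ) ^ (4 * c'') := by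
    push_cast
    rw [abs_neg, abs_of_nonneg (by linarith : (0 : ℝ) ≤ r.den)]
    have h5 : (r.den : ℝ) * (N : ℝ) ^ c ≤ (N : ℝ) ^ c' * (N : ℝ) ^ c := by gcongr
    have h6 : |(r.num : ℝ)| * (N : ℝ) ^ c ≤ (C₀ + 1) * (N : ℝ) ^ (c' + 2 * c) * (N : ℝ) ^ c := by gcongr
    have h7 : (N : ℝ) ^ c' * (N : ℝ) ^ c ≤ (N : ℝ) ^ (4 * c') := by
      rw [← Real.rpow_add hN0]
      exact Real.rpow_le_rpow_of_exponent_le hN1 (by linarith)
    have h8 : (C₀ + 1) * (N : ℝ) ^ (c' + 2 * c) * (N : ℝ) ^ c ≤ (C₀ + 1) * (N : ℝ) ^ (4 * c') := by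
      rw [mul_assoc, ← Real.rpow_add hN0]
      exact mul_le_mul_of_nonneg_left (Real.rpow_le_rpow_of_exponent_le hN1 (by linarith)) (by linarith)
    have h9 : (C₀ + 2) * (N : ℝ) ^ (4 * c') ≤ (N : ℝ) ^ (4 * (c'' - c')) * (N : ℝ) ^ (4 * c') := by gcongr
    have h10 : (N : ℝ) ^ (4 * (c'' - c')) * (N : ℝ) ^ (4 * c') = (N : ℝ) ^ (4 * c'') := by
      rw [← Real.rpow_add hN0]; congr 1; ring
    linarith
  have hvalue : |ev θ (C (C (r.den : ℤ)) * F + C (C (-r.num)) * G)| ≤ ((N : ℝ) ^ (4 * c'')) ^ (-κ) := by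
    rw [ev_comb]
    have e : (((r.den : ℤ) : ℝ)) * ev θ F + ((-r.num : ℤ) : ℝ) * ev θ G = (r.den * x - r.num) * ev θ G := by
      have h5 : ev θ F = x * ev θ G := by
        rw [hx, div_mul_cancel₀]
        intro h0
        rw [h0, abs_zero] at hG0
        exact lt_irrefl _ hG0
      rw [h5]; push_cast; ring
    rw [e, abs_mul]
    calc |r.den * x - r.num| * |ev θ G| ≤ (N : ℝ) ^ (c' - 1) * (C₀ * (N : ℝ) ^ c) := by gcongr
      _ ≤ (N : ℝ) ^ (c' - 1) * ((N : ℝ) ^ (2 * (c'' - c')) * (N : ℝ) ^ c') := by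
        gcongr
      _ = (N : ℝ) ^ (2 * c'' - 1) := by
        rw [← Real.rpow_add hN0, ← Real.rpow_add hN0]; congr 1; ring
      _ = ((N : ℝ) ^ (4 * c'')) ^ (-κ) := by
        rw [← Real.rpow_mul hN0.le]; congr 1; linarith
  refine ⟨r.num, r.den, by exact_mod_cast r.den_pos, ?_, ?_, ?_⟩
  · push_cast
    exact hr1.trans (Real.rpow_le_rpow_of_exponent_le hN1 (by linarith))
  · push_cast
    exact hqx.le.trans (Real.rpow_le_rpow_of_exponent_le hN1 (by linarith))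
  · exact hP3 _ ((hF.comb hG _ _).mono hheight) hvalue

/-- the four numbers as quotients of polynomials -/
noncomputable def num4 : Fin 4 → ℤ[X][X] := ![X + C X, X - C X, C X * X, X]
noncomputable def den4 : Fin 4 → ℤ[X][X] := ![1, 1, 1, C X]

lemma ev_X (θ : ℝ) : ev θ X = θ := by simp [ev]
lemma ev_CX (θ : ℝ) : ev θ (C X) = Real.exp 1 := by simp [ev, ee]
lemma ev_one (θ : ℝ) : ev θ 1 = 1 := by simp [ev]

/-- two relations whose combination does not involve the outer variable -/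
lemma two_rel {P A B U V : ℤ[X][X]} {a : ℤ[X]} (hP : 0 < P.natDegree) (hA : P ∣ A) (hB : P ∣ B) (ha : a ≠ 0)
    (h : C a = U * A + V * B) : False := by
  refine not_dvd_C hP ha ?_
  rw [h]
  exact dvd_add (Dvd.dvd.mul_left hA _) (Dvd.dvd.mul_left hB _)

lemma ne_of_coeff {a : ℤ[X]} (i : ℕ) (h : a.coeff i ≠ 0) : a ≠ 0 := by
  rintro rfl
  exact h (coeff_zero i)

section pairs

variable {P : ℤ[X][X]} {p q p' q' : ℤ}

lemma pair01 (hP : 0 < P.natDegree) (hq : 1 ≤ q) (hq' : 1 ≤ q')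
    (h : P ∣ C (C q) * (X + C X) + C (C (-p)) * 1) (h' : P ∣ C (C q') * (X - C X) + C (C (-p')) * 1) : False := by
  refine two_rel hP h h' (a := C (2 * q * q') * X + C (-(q' * p) + q * p')) (U := C (C q')) (V := C (C (-q))) ?_ ?_
  · refine ne_of_coeff 1 ?_
    rw [coeff_add, coeff_C_mul, coeff_X_one, coeff_C_succ, mul_one, add_zero]
    positivity
  · simp only [map_add, map_mul, map_neg, map_ofNat]; ring

lemma pair02 (hP : 0 < P.natDegree) (hq : 1 ≤ q) (hq' : 1 ≤ q')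
    (h : P ∣ C (C q) * (X + C X) + C (C (-p)) * 1) (h' : P ∣ C (C q') * (C X * X) + C (C (-p')) * 1) : False := by
  refine two_rel hP h h' (a := C (q * q') * X ^ 2 + C (-(q' * p)) * X + C (q * p')) (U := C (C q') * C X) (V := C (C (-q))) ?_ ?_
  · refine ne_of_coeff 2 ?_
    rw [coeff_add, coeff_add, coeff_C_mul, coeff_C_mul, coeff_X_pow, coeff_X, coeff_C_succ]
    norm_num
    constructor <;> omega
  · simp only [map_add, map_mul, map_neg, map_pow]; ring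

lemma pair12 (hP : 0 < P.natDegree) (hq : 1 ≤ q) (hq' : 1 ≤ q')
    (h : P ∣ C (C q) * (X - C X) + C (C (-p)) * 1) (h' : P ∣ C (C q') * (C X * X) + C (C (-p')) * 1) : False := by
  refine two_rel hP h h' (a := C (-(q * q')) * X ^ 2 + C (-(q' * p)) * X + C (q * p')) (U := C (C q') * C X) (V := C (C (-q))) ?_ ?_
  · refine ne_of_coeff 2 ?_
    rw [coeff_add, coeff_add, coeff_C_mul, coeff_C_mul, coeff_X_pow, coeff_X, coeff_C_succ]
    norm_num
    constructor <;> omega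
  · simp only [map_add, map_mul, map_neg, map_pow]; ring

lemma pair03 (hP : 0 < P.natDegree) (_hq : 1 ≤ q) (hq' : 1 ≤ q') (hp : p ≠ 0)
    (h : P ∣ C (C q) * (X + C X) + C (C (-p)) * 1) (h' : P ∣ C (C q') * X + C (C (-p')) * C X) : False := by
  refine two_rel hP h h' (a := C (q * q' + q * p') * X + C (-(q' * p))) (U := C (C q')) (V := C (C (-q))) ?_ ?_
  · refine ne_of_coeff 0 ?_
    rw [coeff_add, coeff_C_mul, coeff_X_zero, coeff_C_zero, mul_zero, zero_add]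
    exact neg_ne_zero.2 (mul_ne_zero (by omega) hp)
  · simp only [map_add, map_mul, map_neg]; ring

lemma pair13 (hP : 0 < P.natDegree) (_hq : 1 ≤ q) (hq' : 1 ≤ q') (hp : p ≠ 0)
    (h : P ∣ C (C q) * (X - C X) + C (C (-p)) * 1) (h' : P ∣ C (C q') * X + C (C (-p')) * C X) : False := by
  refine two_rel hP h h' (a := C (-(q * q') + q * p') * X + C (-(q' * p))) (U := C (C q')) (V := C (C (-q))) ?_ ?_
  · refine ne_of_coeff 0 ?_
    rw [coeff_add, coeff_C_mul, coeff_X_zero, coeff_C_zero, mul_zero, zero_add]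
    exact neg_ne_zero.2 (mul_ne_zero (by omega) hp)
  · simp only [map_add, map_mul, map_neg]; ring

lemma pair23 (hP : 0 < P.natDegree) (hq : 1 ≤ q) (hq' : 1 ≤ q') (hp' : p' ≠ 0)
    (h : P ∣ C (C q) * (C X * X) + C (C (-p)) * 1) (h' : P ∣ C (C q') * X + C (C (-p')) * C X) : False := by
  refine two_rel hP h h' (a := C (q * p') * X ^ 2 + C (-(q' * p))) (U := C (C q')) (V := C (C (-q)) * C X) ?_ ?_
  · refine ne_of_coeff 2 ?_
    rw [coeff_add, coeff_C_mul, coeff_X_pow, coeff_C_succ]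
    norm_num
    exact ⟨by omega, hp'⟩
  · simp only [map_add, map_mul, map_neg, map_pow]; ring

end pairs

/-- the numbers `π + e`, `π - e`, `π e`, `π / e` -/
noncomputable def four : Fin 4 → ℝ :=
  ![Real.pi + Real.exp 1, Real.pi - Real.exp 1, Real.pi * Real.exp 1, Real.pi / Real.exp 1]

lemma ev_four (i : Fin 4) : ev Real.pi (num4 i) / ev Real.pi (den4 i) = four i := by
  fin_cases i
  · simp [num4, den4, four, ev_add, ev_X, ev_CX, ev_one]
  · simp [num4, den4, four, ev_sub, ev_X, ev_CX, ev_one]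
  · simp [num4, den4, four, ev_mul, ev_X, ev_CX, ev_one]; ring
  · simp [num4, den4, four, ev_X, ev_CX]

lemma bd_four (i : Fin 4) : Bd 1 1 (num4 i) ∧ Bd 1 1 (den4 i) := by
  have key : ∀ F : ℤ[X][X], F.natDegree ≤ 1 → (∀ i, (F.coeff i).natDegree ≤ 1) → (∀ i j, |(F.coeff i).coeff j| ≤ 1) →
      Bd 1 1 F := fun F h1 h2 h3 => ⟨h1, h2, fun i j => by exact_mod_cast h3 i j⟩
  have hX : ∀ i j : ℕ, |((X : ℤ[X][X]).coeff i).coeff j| ≤ 1 := by
    intro i j
    rw [coeff_X]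
    split_ifs
    · rw [coeff_one]; split_ifs <;> simp
    · simp
  have hX' : ∀ i : ℕ, ((X : ℤ[X][X]).coeff i).natDegree ≤ 1 := by
    intro i
    rw [coeff_X]
    split_ifs <;> simp
  have h1 : Bd 1 1 (1 : ℤ[X][X]) := by
    refine key _ (by simp) (fun i => ?_) (fun i j => ?_)
    · rw [coeff_one]; split_ifs <;> simp
    · rw [coeff_one]; split_ifs
      · rw [coeff_one]; split_ifs <;> simp
      · simp
  have hCX : Bd 1 1 (C X : ℤ[X][X]) := by
    refine key _ (by simp) (fun i => ?_) (fun i j => ?_)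
    · rw [coeff_C]; split_ifs <;> simp
    · rw [coeff_C]; split_ifs
      · rw [coeff_X]; split_ifs <;> simp
      · simp
  fin_cases i
  · refine ⟨?_, h1⟩
    refine key _ ?_ (fun i => ?_) (fun i j => ?_)
    · show (X + C X : ℤ[X][X]).natDegree ≤ 1
      compute_degree
    · show ((X + C X : ℤ[X][X]).coeff i).natDegree ≤ 1
      rw [coeff_add]
      exact (natDegree_add_le _ _).trans (max_le (hX' i) (hCX.degc i))
    · show |((X + C X : ℤ[X][X]).coeff i).coeff j| ≤ 1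
      rw [coeff_add, coeff_X, coeff_C, coeff_add]
      rcases i with _ | _ | i
      · simp [coeff_X]; split_ifs <;> simp
      · simp [coeff_one]; split_ifs <;> simp
      · simp
  · refine ⟨?_, h1⟩
    refine key _ ?_ (fun i => ?_) (fun i j => ?_)
    · show (X - C X : ℤ[X][X]).natDegree ≤ 1
      compute_degree
    · show ((X - C X : ℤ[X][X]).coeff i).natDegree ≤ 1
      rw [coeff_sub]
      exact (natDegree_sub_le _ _).trans (max_le (hX' i) (hCX.degc i))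
    · show |((X - C X : ℤ[X][X]).coeff i).coeff j| ≤ 1
      rw [coeff_sub, coeff_X, coeff_C, coeff_sub]
      rcases i with _ | _ | i
      · simp [coeff_X]; split_ifs <;> simp
      · simp [coeff_one]; split_ifs <;> simp
      · simp
  · refine ⟨?_, h1⟩
    refine key _ ?_ (fun i => ?_) (fun i j => ?_)
    · show (C X * X : ℤ[X][X]).natDegree ≤ 1
      exact (natDegree_C_mul_le _ _).trans (by simp)
    · show ((C X * X : ℤ[X][X]).coeff i).natDegree ≤ 1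
      rw [coeff_C_mul, coeff_X]
      split_ifs <;> simp
    · show |((C X * X : ℤ[X][X]).coeff i).coeff j| ≤ 1
      rw [coeff_C_mul, coeff_X]
      split_ifs
      · rw [mul_one, coeff_X]; split_ifs <;> simp
      · simp
  · exact ⟨key _ (by simp [num4]) hX' hX, hCX⟩

/-- **At least three of the four sequences** are equidistributed at every scale. -/
theorem three_of_four (c : ℝ) (hc : c < 1 / 26) : ∃ N₀ : ℕ, ∀ N : ℕ, N₀ ≤ N → ∃ i₀ : Fin 4, ∀ i ≠ i₀,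
    Dev (four i) N ((N : ℝ) ^ (1 - c)) := by
  obtain ⟨c₁, hc₁⟩ : ∃ c₁ : ℝ, c₁ = max c (1 / 27) := ⟨_, rfl⟩
  have hc₁0 : 0 < c₁ := by rw [hc₁]; exact lt_max_of_lt_right (by norm_num)
  have hc₁1 : c₁ < 1 / 26 := by rw [hc₁]; exact max_lt hc (by norm_num)
  obtain ⟨N₀, hN₀⟩ := equi 1 le_rfl c₁ 4 hc₁0 (by push_cast; linarith) (by norm_num)
  refine ⟨max N₀ 9, fun N hN => ?_⟩
  have hN9 : (9 : ℝ) ≤ N := by exact_mod_cast (le_max_right _ _).trans hN
  have hN1 : (1 : ℝ) ≤ N := by linarith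
  have hN0 : (0 : ℝ) < N := by linarith
  obtain ⟨P, hP1, hP2, -, hP3⟩ := hN₀ Real.pi N (by
    rw [abs_of_pos Real.pi_pos]; exact Real.pi_lt_four.le) ((le_max_left _ _).trans hN)
  have hNc : (1 : ℝ) ≤ (N : ℝ) ^ c₁ := Real.one_le_rpow hN1 hc₁0.le
  have hsmall : (N : ℝ) ^ (-(1 / 2) : ℝ) ≤ 1 / 3 := by
    rw [Real.rpow_neg hN0.le, ← Real.sqrt_eq_rpow, one_div]
    have : (3 : ℝ) ≤ √N := by
      rw [show (3 : ℝ) = √9 by
        rw [show (9 : ℝ) = 3 ^ 2 by norm_num, Real.sqrt_sq (by norm_num)]]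
      exact Real.sqrt_le_sqrt hN9
    gcongr
  have hpi := Real.pi_gt_d2
  have he := Real.exp_one_lt_d9
  have he' := Real.exp_one_gt_d9
  have hden : ∀ i, (N : ℝ) ^ (-c₁) ≤ |ev Real.pi (den4 i)| := by
    intro i
    have h1 : (N : ℝ) ^ (-c₁) ≤ 1 := Real.rpow_le_one_of_one_le_of_nonpos hN1 (by linarith)
    refine h1.trans ?_
    fin_cases i
    · simp [den4, ev_one]
    · simp [den4, ev_one]
    · simp [den4, ev_one]
    · simp only [den4]
      show 1 ≤ |ev Real.pi (C X)|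
      rw [ev_CX, abs_of_pos (Real.exp_pos 1)]
      linarith
  have hmono : (N : ℝ) ^ (1 - c₁) ≤ (N : ℝ) ^ (1 - c) :=
    Real.rpow_le_rpow_of_exponent_le hN1 (by have := le_max_left c (1 / 27); rw [← hc₁] at this; linarith)
  have alt : ∀ i, Dev (four i) N ((N : ℝ) ^ (1 - c)) ∨ ∃ p q : ℤ, 1 ≤ q ∧ |(q : ℝ) * four i - p| ≤ 1 / 3 ∧
      P ∣ C (C q) * num4 i + C (C (-p)) * den4 i := by
    intro i
    rcases hP3 (num4 i) (den4 i) ((bd_four i).1.mono hNc) ((bd_four i).2.mono hNc) (hden i) with h | ⟨p, q, h1, h2, h3, h4⟩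
    · left
      rw [ev_four] at h
      exact h.mono hmono
    · right
      rw [ev_four] at h3
      exact ⟨p, q, h1, h3.trans hsmall, h4⟩
  -- two bad indices are impossible
  have key : ∀ i j : Fin 4, i < j → ¬ Dev (four i) N ((N : ℝ) ^ (1 - c)) → ¬ Dev (four j) N ((N : ℝ) ^ (1 - c)) → False := by
    intro i j hij hi hj
    obtain ⟨p, q, hq, hx, hd⟩ := (alt i).resolve_left hi
    obtain ⟨p', q', hq', hx', hd'⟩ := (alt j).resolve_left hj
    have hqr : (1 : ℝ) ≤ q := by exact_mod_cast hq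
    have hqr' : (1 : ℝ) ≤ q' := by exact_mod_cast hq'
    fin_cases i <;> fin_cases j <;> simp only [Fin.reduceFinMk, Fin.zero_eta, Fin.isValue, Fin.mk_one] at hij hx hx' hd hd' <;>
      first
      | exact absurd hij (by decide)
      | skip
    · exact pair01 hP2 hq hq' hd hd'
    · exact pair02 hP2 hq hq' hd hd'
    · refine pair03 hP2 hq hq' ?_ hd hd'
      rintro rfl
      have h5 : |(q : ℝ) * (Real.pi + Real.exp 1) - ((0 : ℤ) : ℝ)| ≤ 1 / 3 := hx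
      push_cast at h5
      rw [sub_zero, abs_of_pos (by nlinarith)] at h5
      nlinarith
    · exact pair12 hP2 hq hq' hd hd'
    · refine pair13 hP2 hq hq' ?_ hd hd'
      rintro rfl
      have h5 : |(q : ℝ) * (Real.pi - Real.exp 1) - ((0 : ℤ) : ℝ)| ≤ 1 / 3 := hx
      push_cast at h5
      rw [sub_zero, abs_of_pos (by nlinarith)] at h5
      nlinarith
    · refine pair23 hP2 hq hq' ?_ hd hd'
      rintro rfl
      have h5 : |(q' : ℝ) * (Real.pi / Real.exp 1) - ((0 : ℤ) : ℝ)| ≤ 1 / 3 := hx'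
      push_cast at h5
      have h6 : 1 ≤ Real.pi / Real.exp 1 := by
        rw [one_le_div (Real.exp_pos 1)]; linarith
      rw [sub_zero, abs_of_pos (by nlinarith)] at h5
      nlinarith
  by_cases hex : ∃ i, ¬ Dev (four i) N ((N : ℝ) ^ (1 - c))
  · obtain ⟨i₀, hi₀⟩ := hex
    refine ⟨i₀, fun i hi => ?_⟩
    by_contra hnot
    rcases lt_or_gt_of_ne hi with h | h
    · exact key i i₀ h hnot hi₀
    · exact key i₀ i h hi₀ hnot
  · push Not at hex
    exact ⟨0, fun i _ => hex i⟩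

end Pool.Agent.T2H33.NR
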